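import Pool.Agent.Y985.ME.Loc

/-!
Sums over the blocks near the path of local centred variables: the terms of disjoint blocks are
orthogonal.
-/

set_option autoImplicit false

namespace Pool.Agent.Y985.ME

open H974 Finset H342P H984P H984N

theorem okh : Ok (fun _ : Edg => (1/2:ℝ)) := fun _ => ⟨by norm_num, by norm_num⟩

theorem inter_sdiff_mem {D : Dm} {W : ℤ} {q : Vtx} {F : Finset Edg} (hF : F ⊆ D.edges) (e : Edg)
    (he : e ∉ Lam D W q) : e ∈ F ↔ e ∈ F ∩ (D.edges \ Lam D W q) := by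
  rw [mem_inter, mem_sdiff]
  constructor
  · intro h
    exact ⟨h, hF h, he⟩
  · intro h
    exact h.1

theorem Ar_inter {D : Dm} (hD : D.Ok) {W : ℤ} (hW : 1 ≤ W) {r : ℕ} {q : Vtx} {F : Finset Edg}
    (hF : F ⊆ D.edges) : Ar D W r q F ↔ Ar D W r q (F ∩ (D.edges \ Lam D W q)) := by
  have hG : F ∩ (D.edges \ Lam D W q) ⊆ D.edges := inter_subset_left.trans hF
  constructor
  · intro h
    exact Ar_loc hD hW hF hG (fun e he => inter_sdiff_mem hF e he) h
  · intro h
    exact Ar_loc hD hW hG hF (fun e he => (inter_sdiff_mem hF e he).symm) h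

theorem Kr_inter {D : Dm} (hD : D.Ok) {W : ℤ} (hW : 1 ≤ W) {r : ℕ} {R : ℕ → ℕ → Prop}
    (hR : ∀ s t, R s t → s ≤ t) {q q' : Vtx} {F : Finset Edg} (hF : F ⊆ D.edges) :
    Kr D W r R q q' F ↔ Kr D W r R q q' (F ∩ (D.edges \ Lam D W q')) := by
  have hG : F ∩ (D.edges \ Lam D W q') ⊆ D.edges := inter_subset_left.trans hF
  constructor
  · intro h
    exact Kr_loc hD hW hR hF hG (fun e he => inter_sdiff_mem hF e he) h
  · intro h
    exact Kr_loc hD hW hR hG hF (fun e he => (inter_sdiff_mem hF e he).symm) h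

theorem cross_zero {D : Dm} (hD : D.Ok) {W : ℤ} (hW : 1 ≤ W) {r : ℕ} {R : ℕ → ℕ → Prop}
    (hR : ∀ s t, R s t → s ≤ t) {q q' : Vtx} (hqq : 6 ≤ sd q q') {Y : Vtx → Finset Edg → ℝ}
    (hY : ∀ q F, Y q F = Y q (F ∩ Lam D W q)) (m : ℝ) :
    E D.edges (fun F => (ind (Kr D W r R q q' F) * (Y q F - m)) *
      (Y q' F - E D.edges (Y q'))) = 0 := by
  have hd := Lam_disj (D := D) hW hqq
  have h := Ex_mul_indep (p := fun _ : Edg => (1/2:ℝ)) (U := D.edges)
    (S := D.edges \ Lam D W q') (T := Lam D W q')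
    (f := fun F => ind (Kr D W r R q q' F) * (Y q F - m))
    (g := fun F => Y q' F - E D.edges (Y q')) sdiff_subset (Lam_sub D W q') sdiff_disjoint
    (fun F hF => by
      rw [ind_congr (Kr_inter hD hW hR hF), hY q F, hY q (F ∩ (D.edges \ Lam D W q'))]
      congr 3
      ext e
      rw [mem_inter, mem_inter, mem_inter, mem_sdiff]
      constructor
      · rintro ⟨h1, h2⟩
        exact ⟨⟨h1, hF h1, fun h3 => (disjoint_left.mp hd) h2 h3⟩, h2⟩
      · rintro ⟨⟨h1, -⟩, h2⟩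
        exact ⟨h1, h2⟩)
    (fun F _ => by
      rw [hY q' F])
  have h0 : Ex (fun _ : Edg => (1/2:ℝ)) D.edges (fun F => Y q' F - E D.edges (Y q')) = 0 := by
    rw [Ex_sub, Ex_const]
    exact sub_self _
  rw [h0, mul_zero] at h
  exact h

theorem diag_le {D : Dm} (hD : D.Ok) {W : ℤ} (hW : 1 ≤ W) {r : ℕ} {q : Vtx}
    {Y : Vtx → Finset Edg → ℝ} (hY : ∀ q F, Y q F = Y q (F ∩ Lam D W q)) {V : ℝ}
    (hV : E D.edges (fun F => (Y q F) ^ 2) ≤ V) :
    E D.edges (fun F => (ind (Ar D W r q F) * (Y q F - E D.edges (Y q))) ^ 2) ≤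
      V * P D.edges (Tch D W q) := by
  set m : ℝ := E D.edges (Y q) with hm
  have h := Ex_mul_indep (p := fun _ : Edg => (1/2:ℝ)) (U := D.edges)
    (S := D.edges \ Lam D W q) (T := Lam D W q)
    (f := fun F => ind (Ar D W r q F))
    (g := fun F => (Y q F - m) ^ 2) sdiff_subset (Lam_sub D W q) sdiff_disjoint
    (fun F hF => ind_congr (Ar_inter hD hW hF))
    (fun F _ => by
      rw [hY q F])
  have e1 : E D.edges (fun F => (ind (Ar D W r q F) * (Y q F - m)) ^ 2) =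
      E D.edges (fun F => ind (Ar D W r q F) * (Y q F - m) ^ 2) := by
    refine Ex_congr fun F _ => ?_
    rw [mul_pow, sq (ind _), ind_sq]
  have e2 : E D.edges (fun F => (Y q F - m) ^ 2) = E D.edges (fun F => (Y q F) ^ 2) - m ^ 2 := by
    have h1 : E D.edges (fun F => (Y q F - m) ^ 2) =
        E D.edges (fun F => ((Y q F) ^ 2 - (2 * m) * Y q F) + m ^ 2) := by
      refine Ex_congr fun F _ => ?_
      ring
    rw [h1]
    show Ex _ _ _ = _
    rw [Ex_add, Ex_sub, Ex_mul_left, Ex_const]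
    show _ - (2 * m) * m + m ^ 2 = _
    ring
  have e3 : E D.edges (fun F => (Y q F - m) ^ 2) ≤ V := by
    rw [e2]
    nlinarith [sq_nonneg m]
  have e4 : Ex (fun _ : Edg => (1/2:ℝ)) D.edges (fun F => ind (Ar D W r q F)) ≤
      P D.edges (Tch D W q) := by
    refine Ex_mono okh fun F _ => ind_mono ?_
    rintro ⟨t, ht, -⟩
    exact tch_hit.mpr ⟨t, ht⟩
  have e5 : 0 ≤ E D.edges (fun F => (Y q F - m) ^ 2) := Ex_nonneg okh fun F _ => sq_nonneg _
  rw [e1]
  show Ex _ _ _ ≤ _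
  rw [h, mul_comm]
  exact mul_le_mul e3 e4 (Ex_nonneg okh fun F _ => ind_nonneg _) (e5.trans e3)

theorem card_near (q : Vtx) (Q : Finset Vtx) : (Q.filter (fun q' => sd q q' ≤ 5)).card ≤ 121 := by
  have h : Q.filter (fun q' => sd q q' ≤ 5) ⊆
      Finset.Icc (q.1 - 5) (q.1 + 5) ×ˢ Finset.Icc (q.2 - 5) (q.2 + 5) := by
    intro q' hq'
    rw [mem_filter, det_sd_eq] at hq'
    rw [mem_product, mem_Icc, mem_Icc]
    omega
  refine (card_le_card h).trans ?_
  rw [card_product, Int.card_Icc, Int.card_Icc]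
  have e1 : (q.1 + 5 + 1 - (q.1 - 5)).toNat = 11 := by omega
  have e2 : (q.2 + 5 + 1 - (q.2 - 5)).toNat = 11 := by omega
  rw [e1, e2]

/-- The law of large numbers for the blocks of rank smaller than `r`. -/
theorem lln {D : Dm} (hD : D.Ok) {W : ℤ} (hW : 1 ≤ W) (r : ℕ) (Q : Finset Vtx)
    {Y : Vtx → Finset Edg → ℝ} (hY : ∀ q F, Y q F = Y q (F ∩ Lam D W q)) {V : ℝ}
    (hV : ∀ q ∈ Q, E D.edges (fun F => (Y q F) ^ 2) ≤ V) :
    E D.edges (fun F => (∑ q ∈ Q, ind (Ar D W r q F) * (Y q F - E D.edges (Y q))) ^ 2) ≤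
      121 * V * ∑ q ∈ Q, P D.edges (Tch D W q) := by
  classical
  obtain ⟨a, ha⟩ : ∃ a : Vtx → Finset Edg → ℝ,
    a = fun q F => ind (Ar D W r q F) * (Y q F - E D.edges (Y q)) := ⟨_, rfl⟩
  obtain ⟨A, hA⟩ : ∃ A : Vtx → ℝ, A = fun q => E D.edges (fun F => (a q F) ^ 2) := ⟨_, rfl⟩
  have hA0 : ∀ q, 0 ≤ A q := fun q => by rw [hA]; exact Ex_nonneg okh fun F _ => sq_nonneg _
  have hAV : ∀ q ∈ Q, A q ≤ V * P D.edges (Tch D W q) := fun q hq => by
    rw [hA, ha]; exact diag_le hD hW hY (hV q hq)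
  have e1 : E D.edges (fun F => (∑ q ∈ Q, a q F) ^ 2) =
      ∑ q ∈ Q, ∑ q' ∈ Q, E D.edges (fun F => a q F * a q' F) := by
    have : E D.edges (fun F => (∑ q ∈ Q, a q F) ^ 2) =
        E D.edges (fun F => ∑ q ∈ Q, ∑ q' ∈ Q, a q F * a q' F) := by
      refine Ex_congr fun F _ => ?_
      rw [sq, sum_mul_sum]
    rw [this]
    show Ex _ _ _ = _
    rw [Ex_sum]
    refine sum_congr rfl fun q _ => ?_
    rw [Ex_sum]
  have e2 : ∀ q ∈ Q, ∀ q' ∈ Q, E D.edges (fun F => a q F * a q' F) ≤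
      if sd q q' ≤ 5 then (A q + A q') / 2 else 0 := by
    intro q _ q' _
    split_ifs with h
    · have h1 : E D.edges (fun F => a q F * a q' F) ≤
          E D.edges (fun F => (1/2 : ℝ) * ((a q F) ^ 2 + (a q' F) ^ 2)) := by
        refine Ex_mono okh fun F _ => ?_
        nlinarith [sq_nonneg (a q F - a q' F)]
      refine h1.trans (le_of_eq ?_)
      show Ex _ _ _ = _
      rw [Ex_mul_left, Ex_add, hA]
      ring
    · refine le_of_eq ?_
      have h6 : 6 ≤ sd q q' := by omega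
      have h6' : 6 ≤ sd q' q := by rw [det_sd_comm]; exact h6
      have z1 := cross_zero (r := r) hD hW (R := fun s t => s ≤ t) (fun _ _ h => h) h6 hY
        (E D.edges (Y q))
      have z2 := cross_zero (r := r) hD hW (R := fun s t => s < t) (fun _ _ h => le_of_lt h) h6' hY
        (E D.edges (Y q'))
      have z3 : E D.edges (fun F => a q F * a q' F) =
          E D.edges (fun F => (ind (Kr D W r (fun s t => s ≤ t) q q' F) *
            (Y q F - E D.edges (Y q))) * (Y q' F - E D.edges (Y q')) +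
            (ind (Kr D W r (fun s t => s < t) q' q F) * (Y q' F - E D.edges (Y q'))) *
            (Y q F - E D.edges (Y q))) := by
        refine Ex_congr fun F _ => ?_
        have h7 := Ar_split (D := D) (W := W) (r := r) (q := q) (q' := q') (F := F)
        rw [ha]
        simp only
        calc ind (Ar D W r q F) * (Y q F - E D.edges (Y q)) *
              (ind (Ar D W r q' F) * (Y q' F - E D.edges (Y q'))) =
            (ind (Ar D W r q F) * ind (Ar D W r q' F)) *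
              ((Y q F - E D.edges (Y q)) * (Y q' F - E D.edges (Y q'))) := by ring
          _ = _ := by rw [h7]; ring
      rw [z3]
      show Ex _ _ _ = _
      rw [Ex_add]
      show E D.edges _ + E D.edges _ = 0
      rw [z1, z2, add_zero]
  have e3 : ∑ q ∈ Q, ∑ q' ∈ Q, (if sd q q' ≤ 5 then (A q + A q') / 2 else 0) ≤
      121 * ∑ q ∈ Q, A q := by
    have s1 : ∀ q, ∑ q' ∈ Q, (if sd q q' ≤ 5 then A q / 2 else 0) ≤ 121 * (A q / 2) := by
      intro q
      rw [← sum_filter, sum_const, nsmul_eq_mul]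
      refine mul_le_mul_of_nonneg_right ?_ (by have := hA0 q; linarith)
      exact_mod_cast card_near q Q
    have s2 : ∑ q ∈ Q, ∑ q' ∈ Q, (if sd q q' ≤ 5 then (A q + A q') / 2 else 0) =
        ∑ q ∈ Q, ∑ q' ∈ Q, (if sd q q' ≤ 5 then A q / 2 else 0) +
        ∑ q ∈ Q, ∑ q' ∈ Q, (if sd q q' ≤ 5 then A q' / 2 else 0) := by
      rw [← sum_add_distrib]
      refine sum_congr rfl fun q _ => ?_
      rw [← sum_add_distrib]
      refine sum_congr rfl fun q' _ => ?_
      split_ifs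
      · ring
      · ring
    have s3 : ∑ q ∈ Q, ∑ q' ∈ Q, (if sd q q' ≤ 5 then A q' / 2 else 0) =
        ∑ q ∈ Q, ∑ q' ∈ Q, (if sd q q' ≤ 5 then A q / 2 else 0) := by
      rw [sum_comm]
      refine sum_congr rfl fun q _ => sum_congr rfl fun q' _ => ?_
      rw [det_sd_comm]
    have s4 := sum_le_sum (s := Q) (fun q _ => s1 q)
    rw [s2, s3]
    have s5 : ∑ q ∈ Q, 121 * (A q / 2) = 121 / 2 * ∑ q ∈ Q, A q := by
      rw [mul_sum]
      refine sum_congr rfl fun q _ => ?_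
      ring
    rw [s5] at s4
    linarith
  have e4 : E D.edges (fun F => (∑ q ∈ Q, ind (Ar D W r q F) * (Y q F - E D.edges (Y q))) ^ 2) =
      E D.edges (fun F => (∑ q ∈ Q, a q F) ^ 2) := by rw [ha]
  rw [e4, e1]
  refine (sum_le_sum fun q hq => sum_le_sum fun q' hq' => e2 q hq q' hq').trans (e3.trans ?_)
  have e5 : ∑ q ∈ Q, A q ≤ ∑ q ∈ Q, V * P D.edges (Tch D W q) := sum_le_sum hAV
  rw [← mul_sum] at e5
  linarith

theorem Ar_top {D : Dm} {W : ℤ} {q : Vtx} {F : Finset Edg} :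
    Ar D W ((Bks D W).card + 1) q F ↔ Tch D W q F := by
  classical
  rw [tch_hit]
  constructor
  · rintro ⟨t, ht, -⟩
    exact ⟨t, ht⟩
  · rintro ⟨t, ht⟩
    refine ⟨t, ht, ?_⟩
    unfold Nt
    exact Nat.lt_succ_of_le (card_le_card (filter_subset _ _))

theorem s_lln : S_LLN := by
  intro D W hD hW Q _ Y V hY hV
  have h := lln hD hW ((Bks D W).card + 1) Q hY hV
  refine le_trans (le_of_eq ?_) h
  refine Ex_congr fun F _ => ?_
  congr 1
  refine sum_congr rfl fun q _ => ?_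
  rw [ind_congr Ar_top]

end Pool.Agent.Y985.ME
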