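import Pool.Agent.H984R4.NP.Model
import Pool.Agent.H984R4.NP.Bulk
import Pool.Agent.H984R4.NP.LayerR

/-!
Blocks and the exploration path: definitions and statements (nothing is assumed).
-/

set_option autoImplicit false

namespace Pool.Agent.Y985.ME

open H974 Finset H342P H984P H984N MeasureTheory Filter Topology

/-- The block (of side `W`) of a vertex. -/
def blk (W : ℤ) (v : Vtx) : Vtx := (v.1 / W, v.2 / W)

/-- The edges of the rectangle near the block `q`. -/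
noncomputable def Lam (D : Dm) (W : ℤ) (q : Vtx) : Finset Edg :=
  RE (max D.l (q.1 * W - 2 * W)) (min D.r (q.1 * W + 3 * W))
    (max 0 (q.2 * W - 2 * W)) (min D.h (q.2 * W + 3 * W))

/-- The blocks which meet the rectangle. -/
noncomputable def Bks (D : Dm) (W : ℤ) : Finset Vtx :=
  Finset.Icc (D.l / W) (D.r / W) ×ˢ Finset.Icc 0 (D.h / W)

/-- The path comes near the block `q`. -/
def Tch (D : Dm) (W : ℤ) (q : Vtx) (F : Finset Edg) : Prop :=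
  ∃ t ≤ D.len F, sd (blk W (D.walk F t).1) q ≤ 3

open Classical in
/-- The blocks which are visited after the time `i` and whose neighbourhood was visited before. -/
noncomputable def Rev (D : Dm) (W : ℤ) (i : ℕ) (F : Finset Edg) : Finset Vtx :=
  (Bks D W).filter (fun q => (∃ t < i, sd (blk W (D.walk F t).1) q ≤ 3) ∧
    ∃ t, i ≤ t ∧ t ≤ D.len F ∧ blk W (D.walk F t).1 = q)

/-- The blocks which are visited between the times `i` and `j`. -/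
noncomputable def Vb (D : Dm) (W : ℤ) (i j : ℕ) (F : Finset Edg) : Finset Vtx :=
  (Finset.Icc i j).image (fun t => blk W (D.walk F t).1)

/-! ### The bad event of a block -/

/-- Conditions for the parameters. -/
structure Par (R L w W : ℤ) : Prop where
  hR : 1 ≤ R
  hRL : 3 * R ≤ L
  hw : 5 * L + 4 ≤ w
  hWw : 4 * w + 1 ≤ W

/-- A bad square near the block. -/
def BadB (M : ℕ) (R L W : ℤ) (D : Dm) (q : Vtx) (F : Finset Edg) : Prop :=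
  ∃ p p' : ℤ, (q.1 * W - W - L < L * p ∧ L * p < q.1 * W + 2 * W) ∧
    (q.2 * W - W - L < L * p' ∧ L * p' < q.2 * W + 2 * W) ∧
    (D.l ≤ L * p - 2 * L ∧ L * p + 2 * L ≤ D.r) ∧ (0 ≤ L * p' - 2 * L ∧ L * p' + 2 * L ≤ D.h) ∧
    bulk_sq M R L (L * p - 2 * L) (L * p' - 2 * L) F

/-- The layer of width `ρ` at the boundary of the rectangle of `Lam D W q`. -/
def Lay (D : Dm) (W ρ : ℤ) (q : Vtx) : Set Edg :=
  {e | bdr (max D.l (q.1 * W - 2 * W)) (min D.r (q.1 * W + 3 * W))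
      (max 0 (q.2 * W - 2 * W)) (min D.h (q.2 * W + 3 * W)) (src e) < ρ ∧
    bdr (max D.l (q.1 * W - 2 * W)) (min D.r (q.1 * W + 3 * W))
      (max 0 (q.2 * W - 2 * W)) (min D.h (q.2 * W + 3 * W)) (tgt e) < ρ}

/-- An open path at the boundary. -/
def BadP (L w W : ℤ) (D : Dm) (q : Vtx) (F : Finset Edg) : Prop :=
  ∃ u v : Vtx, w ≤ sd u v ∧ Reach (↑(F ∩ Lam D W q) ∩ Lay D W (5 * L + 2) q : Set Edg) u v

/-- A closed dual path at the boundary. -/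
def BadD (L w W : ℤ) (D : Dm) (q : Vtx) (F : Finset Edg) : Prop :=
  ∃ f g : Vtx, w - 1 ≤ sd f g ∧
    DReach ((↑(Lam D W q) ∩ Lay D W (5 * L + 2) q) \ ↑F : Set Edg) f g

/-- The bad event of a block. -/
def Bad (M : ℕ) (R L w W : ℤ) (D : Dm) (q : Vtx) (F : Finset Edg) : Prop :=
  BadB M R L W D q F ∨ BadP L w W D q F ∨ BadD L w W D q F

/-- Near a block which is not bad the path is slow (deterministic). -/
def S_SLOW : Prop := ∀ (D : Dm) (M : ℕ) (R L w W : ℤ) (q : Vtx) (F : Finset Edg), D.Ok →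
  Par R L w W → 8 * W ≤ -D.l → 8 * W ≤ D.r → 8 * W ≤ D.h → F ⊆ D.edges →
  ¬ Bad M R L w W D q F → ∀ k l : ℕ, k ≤ l → l ≤ D.len F →
  (∀ t, k ≤ t → t ≤ l → sd (blk W (D.walk F t).1) q ≤ 1) →
  W ≤ sd (D.walk F k).1 (D.walk F l).1 → M ≤ l - k

/-- The bad event has small probability. -/
def S_BADPR : Prop := ∀ η : ℝ, 0 < η → ∃ c s : ℝ, 0 < c ∧ 0 < s ∧
  ∀ W : ℤ, s ≤ W → ∃ R L w : ℤ, Par R L w W ∧ ∀ D : Dm, D.Ok → 8 * W ≤ -D.l → 8 * W ≤ D.r →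
    8 * W ≤ D.h → ∀ q ∈ Bks D W, P D.edges (Bad ⌈c * (W : ℝ) ^ (7/4 : ℝ)⌉₊ R L w W D q) ≤ η

/-! ### Lattice statements -/

/-- Local bad events of small probability; near a block which is not bad the path is slow. -/
def S_BLK : Prop := ∀ η : ℝ, 0 < η → ∃ c s : ℝ, 0 < c ∧ 0 < s ∧
  ∀ (D : Dm) (W : ℤ), D.Ok → s ≤ W → s * W ≤ -D.l → s * W ≤ D.r → s * W ≤ D.h →
  ∃ Bad : Vtx → Finset Edg → Prop,
    (∀ q F, Bad q F ↔ Bad q (F ∩ Lam D W q)) ∧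
    (∀ q ∈ Bks D W, P D.edges (Bad q) ≤ η) ∧
    (∀ F ⊆ D.edges, ∀ q, ¬ Bad q F → ∀ k l : ℕ, k ≤ l → l ≤ D.len F →
      (∀ t, k ≤ t → t ≤ l → sd (blk W (D.walk F t).1) q ≤ 1) →
      W ≤ sd (D.walk F k).1 (D.walk F l).1 →
      c * (W : ℝ) ^ (7/4 : ℝ) ≤ ((l - k : ℕ) : ℝ))

/-- The lower tail of the duration of the pieces of extent `y`. -/
def S_FAST : Prop := ∀ κ : ℝ, 0 < κ → ∃ c C : ℝ, 0 < c ∧ 0 < C ∧
  ∀ (D : Dm) (n y x : ℝ), D.Shape κ n → 0 < x → x ≤ 1 → C * x ^ (-(4/3) : ℝ) ≤ y → y ≤ n →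
  P D.edges (fun F => ∃ k l : ℕ, k ≤ l ∧ l ≤ D.len F ∧
      y ≤ ((sd (D.walk F k).1 (D.walk F l).1 : ℤ) : ℝ) ∧
      ((l - k : ℕ) : ℝ) ≤ x * y ^ (7/4 : ℝ)) ≤
    C * (n / y) ^ 2 * Real.exp (-(c * x ^ (-(4/3) : ℝ)))

open Classical in
/-- The upper tail of the time spent in the boxes of radius `r`. -/
def S_OCC : Prop := ∃ l C : ℝ, 0 < l ∧ 0 < C ∧ ∀ (D : Dm) (n r u : ℝ), D.Ok →
  ((D.r - D.l : ℤ) : ℝ) ≤ n → (D.h : ℝ) ≤ n → 1 ≤ r → r ≤ n → 0 ≤ u →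
  P D.edges (fun F => ∃ v : Vtx, u * r ^ (7/4 : ℝ) ≤
      (((Finset.range (D.len F + 1)).filter
        (fun t => ((sd (D.walk F t).1 v : ℤ) : ℝ) ≤ r)).card : ℝ)) ≤
    C * (n / r) ^ 2 * Real.exp (-(u / l) ^ 8)

/-- Expected number of the blocks near the path and near the boundary. -/
def S_FM : Prop := ∀ κ : ℝ, 0 < κ → ∃ C : ℝ, 0 < C ∧ ∀ (D : Dm) (n ρ : ℝ) (W : ℤ),
  D.Shape κ n → 1 ≤ W → (W : ℝ) ≤ ρ → ρ ≤ n →
  ∑ q ∈ (Bks D W).filter (fun q => ((D.bd (q.1 * W, q.2 * W) : ℤ) : ℝ) ≤ ρ),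
      P D.edges (Tch D W q) ≤
    C * (n / W) ^ (7/4 : ℝ) * (ρ / n) ^ (3/4 : ℝ)

open Classical in
/-- Independence: the sum over the blocks near the path of local centred variables. -/
def S_LLN : Prop := ∀ (D : Dm) (W : ℤ), D.Ok → 1 ≤ W → ∀ Q ⊆ Bks D W,
  ∀ (Y : Vtx → Finset Edg → ℝ) (V : ℝ), (∀ q F, Y q F = Y q (F ∩ Lam D W q)) →
  (∀ q ∈ Q, E D.edges (fun F => (Y q F) ^ 2) ≤ V) →
  E D.edges (fun F => (∑ q ∈ Q, ind (Tch D W q F) * (Y q F - E D.edges (Y q))) ^ 2) ≤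
    121 * V * ∑ q ∈ Q, P D.edges (Tch D W q)

open Classical in
/-- No small ball contains many of the blocks near the path. -/
def S_NEAR : Prop := ∀ κ : ℝ, 0 < κ → ∃ C : ℝ, 0 < C ∧ ∀ (D : Dm) (n : ℝ) (W : ℤ),
  D.Shape κ n → C ≤ W → C * W ≤ n →
  P D.edges (fun F => ∃ v : Vtx, (n / W) ^ (7/4 - 1/20 : ℝ) ≤
      (((Bks D W).filter (fun q => Tch D W q F ∧
        ((sd (q.1 * W, q.2 * W) v : ℤ) : ℝ) ≤ n * (W / n) ^ (1/5 : ℝ))).card : ℝ)) ≤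
    C * (W / n) ^ (1/20 : ℝ)

/-- Only few blocks are visited again. -/
def S_REV : Prop := ∀ κ : ℝ, 0 < κ → ∃ C : ℝ, 0 < C ∧ ∀ (D : Dm) (n : ℝ) (W : ℤ),
  D.Shape κ n → C ≤ W → C * W ≤ n →
  P D.edges (fun F => ∃ i ≤ D.len F, C * (n / W) ^ (7/4 - 1/20 : ℝ) ≤ ((Rev D W i F).card : ℝ)) ≤
    C * (W / n) ^ (1/20 : ℝ)

/-! ### Statements about the limits -/

/-- Upper bound for the modulus of continuity of the limits. -/
def ModUp (R : Rect) : Prop := ∃ C : ℝ, 0 < C ∧ ∀ δ : ℕ → ℝ, (∀ i, 0 < δ i) →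
  Tendsto δ atTop (𝓝 0) → ∀ μ : ProbabilityMeasure X,
  Tendsto (fun i => R.law (δ i)) atTop (𝓝 μ) → ∀ᵐ p ∂(μ : Measure X),
  ∃ h0 : ℝ, 0 < h0 ∧ ∀ h : ℝ, 0 < h → h < h0 → ∀ s t : unitInterval,
    |(s : ℝ) - t| * p.2 ≤ h →
    dist (p.1 s) (p.1 t) ≤ C * (h ^ (4/7 : ℝ) * Real.log (1 / h) ^ (3/7 : ℝ))

/-- Upper bound for the time spent in the balls. -/
def OccUp (R : Rect) : Prop := ∃ C : ℝ, 0 < C ∧ ∀ δ : ℕ → ℝ, (∀ i, 0 < δ i) →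
  Tendsto δ atTop (𝓝 0) → ∀ μ : ProbabilityMeasure X,
  Tendsto (fun i => R.law (δ i)) atTop (𝓝 μ) → ∀ᵐ p ∂(μ : Measure X),
  ∃ r0 : ℝ, 0 < r0 ∧ ∀ r : ℝ, 0 < r → r < r0 → ∀ z : ℂ,
    p.2 * (volume {s : unitInterval | dist (p.1 s) z ≤ r}).toReal ≤
      C * (r ^ (7/4 : ℝ) * Real.log (1 / r) ^ (1/8 : ℝ))

/-- Number of the points of `ε ℤ²` with distance at most `r` to a set. -/
noncomputable def cnt (ε r : ℝ) (K : Set ℂ) : ℕ :=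
  Set.ncard {z : ℤ × ℤ | ∃ w ∈ K, dist w ⟨ε * z.1, ε * z.2⟩ ≤ r}

/-- Comparison of the time and of the number of boxes, all pieces of the lattice path: `c0`, `C0`
constants of the comparison, `C1`, `θ` constants of the error terms. -/
def S_MESH : Prop := ∀ R : Rect, ∃ c0 C0 C1 θ ε0 : ℝ, 0 < c0 ∧ 0 < C0 ∧ 0 < C1 ∧ 0 < θ ∧ 0 < ε0 ∧
  ∀ ε : ℝ, 0 < ε → ε ≤ ε0 → ∃ δ0 : ℝ, 0 < δ0 ∧ ∀ δ : ℝ, 0 < δ → δ ≤ δ0 →
  R.prob δ (fun F => ¬ ∀ i j : ℕ, i ≤ j → j ≤ (R.dm δ).len F →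
    c0 * (δ ^ (7/4 : ℝ) * ((j - i : ℕ) : ℝ)) ≤ ε ^ (7/4 : ℝ) *
      (cnt ε ε ((fun t => pos δ ((R.dm δ).walk F t)) '' Set.Icc i j) : ℝ) + ε ^ θ ∧
    ε ^ (7/4 : ℝ) *
      (cnt ε (3 * ε) ((fun t => pos δ ((R.dm δ).walk F t)) '' Set.Icc i j) : ℝ) ≤
      C0 * (δ ^ (7/4 : ℝ) * ((j - i : ℕ) : ℝ)) + ε ^ θ) ≤ C1 * ε ^ θ

/-- The natural time of every piece of every limit is comparable with the `7/4`-dimensional
Minkowski content of the piece. -/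
def Mink (R : Rect) : Prop := ∃ c C : ℝ, 0 < c ∧ 0 < C ∧ ∀ δ : ℕ → ℝ, (∀ i, 0 < δ i) →
  Tendsto δ atTop (𝓝 0) → ∀ μ : ProbabilityMeasure X,
  Tendsto (fun i => R.law (δ i)) atTop (𝓝 μ) → ∀ᵐ p ∂(μ : Measure X),
  ∀ s t : unitInterval, s < t → ∃ ε0 : ℝ, 0 < ε0 ∧ ∀ ε : ℝ, 0 < ε → ε < ε0 →
    c * (p.2 * ((t : ℝ) - s)) ≤
      ε ^ (-(1/4) : ℝ) * (volume (Metric.cthickening ε (p.1 '' Set.Icc s t))).toReal ∧
    ε ^ (-(1/4) : ℝ) * (volume (Metric.cthickening ε (p.1 '' Set.Icc s t))).toReal ≤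
      C * (p.2 * ((t : ℝ) - s))

end Pool.Agent.Y985.ME
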