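import Pool.Agent.Y985.ME.Rank

/-!
All pieces of the path at the same time: the sum over the visited blocks of local variables.
-/

set_option autoImplicit false

namespace Pool.Agent.Y985.ME

open H974 Finset H342P H984P H984N

theorem Pr_exists_le' {S : Finset Edg} {ι : Type*} (T : Finset ι) (A : ι → Finset Edg → Prop) :
    P S (fun F => ∃ i ∈ T, A i F) ≤ ∑ i ∈ T, P S (A i) := by
  classical
  unfold P Pr
  rw [← Ex_sum]
  refine Ex_mono okh fun F _ => ?_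
  by_cases h : ∃ i ∈ T, A i F
  · rw [ind_of h]
    obtain ⟨i, hi, hA⟩ := h
    have h1 : ind (A i F) ≤ ∑ i ∈ T, ind (A i F) :=
      single_le_sum (f := fun i => ind (A i F)) (fun i _ => ind_nonneg _) hi
    rw [ind_of hA] at h1
    exact h1
  · rw [ind_not_of h]
    exact sum_nonneg fun i _ => ind_nonneg _

/-- Chebyshev. -/
theorem cheb {S : Finset Edg} (Z : Finset Edg → ℝ) {f : ℝ} (hf : 0 < f) :
    P S (fun F => f < |Z F|) ≤ E S (fun F => (Z F) ^ 2) / f ^ 2 := by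
  rw [le_div_iff₀ (by positivity)]
  unfold P Pr
  show Ex _ _ _ * _ ≤ _
  rw [← Ex_mul_right]
  refine Ex_mono okh fun F _ => ?_
  by_cases h : f < |Z F|
  · rw [ind_of h, one_mul, ← sq_abs (Z F)]
    exact pow_le_pow_left₀ hf.le h.le 2
  · rw [ind_not_of h, zero_mul]
    positivity

theorem card_div {W a b : ℤ} (hW : 1 ≤ W) (hab : a ≤ b) :
    ((Finset.Icc (a / W) (b / W)).card : ℝ) ≤ ((b - a : ℤ) : ℝ) / W + 2 := by
  rw [Int.card_Icc]
  have h1 : a / W ≤ b / W := Int.ediv_le_ediv (by omega) hab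
  have h2 : (((b / W + 1 - a / W).toNat : ℕ) : ℤ) = b / W + 1 - a / W :=
    Int.toNat_of_nonneg (by omega)
  have h3 : (((b / W + 1 - a / W).toNat : ℕ) : ℝ) = ((b / W : ℤ) : ℝ) + 1 - ((a / W : ℤ) : ℝ) := by
    have : (((b / W + 1 - a / W).toNat : ℕ) : ℝ) = ((b / W + 1 - a / W : ℤ) : ℝ) := by
      exact_mod_cast h2
    rw [this]
    push_cast
    ring
  rw [h3]
  have hW0 : (0:ℝ) < W := by exact_mod_cast (by omega : 0 < W)
  have h4 : ((b / W : ℤ) : ℝ) ≤ (b : ℝ) / W := by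
    rw [le_div_iff₀ hW0]
    exact_mod_cast Int.ediv_mul_le b (by omega : W ≠ 0)
  have h5 : (a : ℝ) / W ≤ ((a / W : ℤ) : ℝ) + 1 := by
    rw [div_le_iff₀ hW0]
    have := Int.lt_ediv_add_one_mul_self a (by omega : 0 < W)
    have h6 : (a : ℝ) < ((a / W + 1 : ℤ) : ℝ) * W := by exact_mod_cast this
    push_cast at h6
    exact h6.le
  push_cast
  rw [sub_div]
  linarith

theorem card_Bks {κ n : ℝ} {D : Dm} (hS : D.Shape κ n) {W : ℤ} (hW : 1 ≤ W) (hWn : (W : ℝ) ≤ n) :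
    ((Bks D W).card : ℝ) ≤ 9 * (n / W) ^ 2 := by
  have hD := hS.ok
  have hW0 : (0:ℝ) < W := by exact_mod_cast (by omega : 0 < W)
  have h1 : 1 ≤ n / W := by rw [le_div_iff₀ hW0]; linarith
  unfold Bks
  rw [card_product]
  push_cast
  have h2 := card_div hW (show D.l ≤ D.r by have := hD.l_neg; have := hD.r_pos; omega)
  have h3 := card_div hW (show (0:ℤ) ≤ D.h by have := hD.h_pos; omega)
  rw [Int.zero_ediv, sub_zero] at h3
  have h4 : ((D.r - D.l : ℤ) : ℝ) / W ≤ n / W := div_le_div_of_nonneg_right hS.w_le hW0.le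
  have h5 : (D.h : ℝ) / W ≤ n / W := div_le_div_of_nonneg_right hS.h_le hW0.le
  have h6 : ((Finset.Icc (D.l / W) (D.r / W)).card : ℝ) ≤ 3 * (n / W) := by linarith
  have h7 : ((Finset.Icc 0 (D.h / W)).card : ℝ) ≤ 3 * (n / W) := by linarith
  calc ((Finset.Icc (D.l / W) (D.r / W)).card : ℝ) * ((Finset.Icc 0 (D.h / W)).card : ℝ)
      ≤ (3 * (n / W)) * (3 * (n / W)) := by gcongr
    _ = 9 * (n / W) ^ 2 := by ring

/-- the sum of all probabilities -/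
theorem sum_tch (hFM : S_FM) {κ : ℝ} (hκ : 0 < κ) : ∃ C : ℝ, 0 < C ∧ ∀ (D : Dm) (n : ℝ) (W : ℤ),
    D.Shape κ n → 1 ≤ W → (W : ℝ) ≤ n →
    ∑ q ∈ Bks D W, P D.edges (Tch D W q) ≤ C * (n / W) ^ (7/4 : ℝ) := by
  obtain ⟨C, hC, h⟩ := hFM κ hκ
  refine ⟨C, hC, fun D n W hS hW hWn => ?_⟩
  have hD := hS.ok
  have h1 := h D n n W hS hW hWn le_rfl
  have hW0 : (0:ℝ) < W := by exact_mod_cast (by omega : 0 < W)
  have hn : 0 < n := lt_of_lt_of_le hW0 hWn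
  rw [div_self hn.ne', Real.one_rpow, mul_one] at h1
  have h2 : (Bks D W).filter (fun q => ((D.bd (q.1 * W, q.2 * W) : ℤ) : ℝ) ≤ n) = Bks D W := by
    refine filter_true_of_mem fun q hq => ?_
    unfold Bks at hq
    rw [mem_product, mem_Icc, mem_Icc] at hq
    have h3 : 0 ≤ q.2 * W := mul_nonneg hq.2.1 (by omega)
    have h4 : D.bd (q.1 * W, q.2 * W) ≤ D.h := by
      unfold Dm.bd
      simp only
      omega
    have h5 : ((D.bd (q.1 * W, q.2 * W) : ℤ) : ℝ) ≤ (D.h : ℝ) := by exact_mod_cast h4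
    exact h5.trans hS.h_le
  rw [h2] at h1
  exact h1

theorem mainl (hRev : S_REV) (hFM : S_FM) {κ : ℝ} (hκ : 0 < κ) : ∃ C : ℝ, 0 < C ∧
    ∀ (D : Dm) (n : ℝ) (W : ℤ), D.Shape κ n → C ≤ W → C * W ≤ n →
    ∀ (Y : Vtx → Finset Edg → ℝ) (m : ℝ), 0 ≤ m → (∀ q F, Y q F = Y q (F ∩ Lam D W q)) →
    (∀ q F, 0 ≤ Y q F) → (∀ q F, Y q F ≤ (n / W) ^ (1/40 : ℝ)) →
    (∀ q ∈ Bks D W, E D.edges (Y q) ≤ m) →
    P D.edges (fun F => ∃ i j : ℕ, i ≤ j ∧ j ≤ D.len F ∧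
      49 * m * ((Vb D W i j F).card : ℝ) + C * (1 + m) * (n / W) ^ (7/4 - 1/40 : ℝ) <
        ∑ q ∈ Vb D W i j F, Y q F) ≤ C * (W / n) ^ (1/20 : ℝ) := by
  classical
  obtain ⟨CR, hCR, hrev⟩ := hRev κ hκ
  obtain ⟨CF, hCF, hfm⟩ := sum_tch hFM hκ
  refine ⟨CR + 102 + 14 * 121 * CF, by positivity, ?_⟩
  intro D n W hS hCW hCn Y m hm hYl hY0 hYK hYm
  have hD := hS.ok
  have hC1 : (1:ℝ) ≤ CR + 102 + 14 * 121 * CF := by nlinarith
  have hW1 : 1 ≤ W := by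
    have : (1:ℝ) ≤ W := hC1.trans hCW
    exact_mod_cast this
  have hW0 : (0:ℝ) < W := by exact_mod_cast (by omega : 0 < W)
  have hWn : (W : ℝ) ≤ n := by nlinarith
  have hn : 0 < n := lt_of_lt_of_le hW0 hWn
  obtain ⟨U, hU⟩ : ∃ U : ℝ, U = n / W := ⟨_, rfl⟩
  have hU1 : 1 ≤ U := by rw [hU, le_div_iff₀ hW0]; linarith
  have hU0 : 0 < U := by linarith
  have hUinv : (W / n : ℝ) = U⁻¹ := by rw [hU, inv_div]
  rw [← hU] at hYK ⊢
  rw [hUinv]
  obtain ⟨f, hf⟩ : ∃ f : ℝ, f = U ^ (7/4 - 1/40 : ℝ) := ⟨_, rfl⟩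
  have hf1 : 1 ≤ f := by rw [hf]; exact Real.one_le_rpow hU1 (by norm_num)
  obtain ⟨g, hg⟩ : ∃ g : ℕ, g = ⌈f⌉₊ := ⟨_, rfl⟩
  have hgf : f ≤ g := by rw [hg]; exact Nat.le_ceil f
  have hgf2 : (g : ℝ) ≤ 2 * f := by
    rw [hg]
    have := Nat.ceil_lt_add_one (show 0 ≤ f by linarith)
    linarith
  have hg1 : 1 ≤ g := by
    have : (1:ℝ) ≤ g := hf1.trans hgf
    exact_mod_cast this
  obtain ⟨N, hN⟩ : ∃ N : ℕ, N = (Bks D W).card + 1 := ⟨_, rfl⟩
  obtain ⟨L, hL⟩ : ∃ L : ℕ, L = N / g + 1 := ⟨_, rfl⟩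
  have hgL : (Bks D W).card + 1 ≤ g * L := by
    rw [← hN, hL]
    exact (Nat.lt_mul_div_succ N (by omega)).le
  -- the number of the terms
  have hLf : ((L : ℝ) + 1) * f ≤ 12 * U ^ 2 := by
    have h1 : ((N / g : ℕ) : ℝ) ≤ (N : ℝ) / g := Nat.cast_div_le
    have h2 : (N : ℝ) ≤ 10 * U ^ 2 := by
      rw [hN]
      push_cast
      have := card_Bks hS hW1 hWn
      rw [← hU] at this
      nlinarith
    have h3 : ((N / g : ℕ) : ℝ) * f ≤ 10 * U ^ 2 := by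
      have h4 : (N : ℝ) / g * f ≤ N := by
        rw [div_mul_eq_mul_div, div_le_iff₀ (by linarith)]
        exact mul_le_mul_of_nonneg_left hgf (Nat.cast_nonneg _)
      have h5 : ((N / g : ℕ) : ℝ) * f ≤ (N : ℝ) / g * f := mul_le_mul_of_nonneg_right h1 (by linarith)
      linarith
    have h4 : f ≤ U ^ 2 := by
      rw [hf, ← Real.rpow_natCast]
      exact Real.rpow_le_rpow_of_exponent_le hU1 (by norm_num)
    rw [hL]
    push_cast
    nlinarith
  -- the second moments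
  have hsec : ∀ l : ℕ, P D.edges (fun F => f < |ZZ D W Y (g * l) F|) ≤
      121 * CF * (U ^ (1/20 : ℝ) * U ^ (7/4 : ℝ)) / f ^ 2 := by
    intro l
    refine (cheb (ZZ D W Y (g * l)) (by linarith)).trans ?_
    refine div_le_div_of_nonneg_right ?_ (by positivity)
    have h1 := lln hD hW1 (g * l) (Bks D W) hYl (V := U ^ (1/20 : ℝ)) (fun q _ => by
      refine Ex_le_of_le okh fun F _ => ?_
      have e : U ^ (1/20 : ℝ) = (U ^ (1/40 : ℝ)) ^ 2 := by
        rw [← Real.rpow_natCast, ← Real.rpow_mul hU0.le]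
        norm_num
      rw [e]
      exact pow_le_pow_left₀ (hY0 q F) (hYK q F) 2)
    have h2 := hfm D n W hS hW1 hWn
    rw [← hU] at h2
    refine h1.trans ?_
    have h3 : 0 ≤ U ^ (1/20 : ℝ) := Real.rpow_nonneg hU0.le _
    calc 121 * U ^ (1/20 : ℝ) * ∑ q ∈ Bks D W, P D.edges (Tch D W q)
        ≤ 121 * U ^ (1/20 : ℝ) * (CF * U ^ (7/4 : ℝ)) := by gcongr
      _ = 121 * CF * (U ^ (1/20 : ℝ) * U ^ (7/4 : ℝ)) := by ring
  have hgrid : P D.edges (fun F => ∃ l ∈ range (L + 1), f < |ZZ D W Y (g * l) F|) ≤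
      14 * 121 * CF * U⁻¹ ^ (1/20 : ℝ) := by
    refine (Pr_exists_le' _ _).trans ?_
    refine (sum_le_sum fun l _ => hsec l).trans ?_
    rw [sum_const, card_range, nsmul_eq_mul]
    push_cast
    have h1 : ((L : ℝ) + 1) ≤ 12 * U ^ 2 / f := by
      rw [le_div_iff₀ (by linarith)]
      exact hLf
    have h2 : 0 ≤ 121 * CF * (U ^ (1/20 : ℝ) * U ^ (7/4 : ℝ)) / f ^ 2 := by positivity
    calc ((L : ℝ) + 1) * (121 * CF * (U ^ (1/20 : ℝ) * U ^ (7/4 : ℝ)) / f ^ 2)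
        ≤ 12 * U ^ 2 / f * (121 * CF * (U ^ (1/20 : ℝ) * U ^ (7/4 : ℝ)) / f ^ 2) :=
          mul_le_mul_of_nonneg_right h1 h2
      _ = 12 * 121 * CF * (U ^ 2 * (U ^ (1/20 : ℝ) * U ^ (7/4 : ℝ)) / f ^ 3) := by
          field_simp
      _ ≤ 12 * 121 * CF * U⁻¹ ^ (1/20 : ℝ) := by
          refine mul_le_mul_of_nonneg_left ?_ (by positivity)
          rw [div_le_iff₀ (by positivity), hf, ← Real.rpow_natCast, ← Real.rpow_natCast,
            ← Real.rpow_mul hU0.le, Real.inv_rpow hU0.le, ← Real.rpow_neg hU0.le,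
            ← Real.rpow_add hU0, ← Real.rpow_add hU0, ← Real.rpow_add hU0]
          refine Real.rpow_le_rpow_of_exponent_le hU1 ?_
          norm_num
      _ ≤ 14 * 121 * CF * U⁻¹ ^ (1/20 : ℝ) := by
          have : 0 ≤ U⁻¹ ^ (1/20 : ℝ) := by positivity
          nlinarith [mul_nonneg hCF.le this]
  have hr := hrev D n W hS (by nlinarith) (by nlinarith)
  rw [← hU, hUinv] at hr
  -- the event
  have hev : P D.edges (fun F => ∃ i j : ℕ, i ≤ j ∧ j ≤ D.len F ∧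
      49 * m * ((Vb D W i j F).card : ℝ) + (CR + 102 + 14 * 121 * CF) * (1 + m) *
        U ^ (7/4 - 1/40 : ℝ) < ∑ q ∈ Vb D W i j F, Y q F) ≤
      P D.edges (fun F => (∃ l ∈ range (L + 1), f < |ZZ D W Y (g * l) F|) ∨
        ∃ i ≤ D.len F, CR * U ^ (7/4 - 1/20 : ℝ) ≤ ((Rev D W i F).card : ℝ)) := by
    refine Pr_mono okh fun F hF => ?_
    rintro ⟨i, j, hij, hj, hlt⟩
    by_contra hcon
    push Not at hcon
    obtain ⟨h1, h2⟩ := hcon
    have h3 := ZZ_all (F := F) (f := f) hm (fun q => hY0 q F) hYm hg1 hgL (fun l hl =>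
      h1 l (mem_range.mpr (by omega)))
    have h4 := piece hD hW1 hF hm (Real.rpow_nonneg hU0.le (1/40)) (fun q => hY0 q F)
      (fun q => hYK q F) hYm h3 hij hj
    have h5 := h2 i (hij.trans hj)
    have h6 : U ^ (1/40 : ℝ) * ((Rev D W i F).card : ℝ) ≤ CR * f := by
      calc U ^ (1/40 : ℝ) * ((Rev D W i F).card : ℝ)
          ≤ U ^ (1/40 : ℝ) * (CR * U ^ (7/4 - 1/20 : ℝ)) :=
            mul_le_mul_of_nonneg_left h5.le (Real.rpow_nonneg hU0.le _)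
        _ = CR * (U ^ (1/40 : ℝ) * U ^ (7/4 - 1/20 : ℝ)) := by ring
        _ = CR * f := by
            rw [hf, ← Real.rpow_add hU0]
            congr 2
            norm_num
    rw [← hf] at hlt
    have h7 : 2 * (f + m * ((g : ℝ) + 49)) ≤ 2 * f + m * (102 * f) := by
      have : m * ((g : ℝ) + 49) ≤ m * (51 * f) := mul_le_mul_of_nonneg_left (by linarith) hm
      linarith
    have h8 : 0 ≤ CF * (1 + m) * f := by positivity
    have h9 : 0 ≤ m * f := by positivity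
    have h10 : 0 ≤ CR * (m * f) := by positivity
    nlinarith
  refine hev.trans ((Pr_or_le okh _ _ _).trans ?_)
  have hp : 0 ≤ U⁻¹ ^ (1/20 : ℝ) := by positivity
  have := add_le_add hgrid hr
  nlinarith

end Pool.Agent.Y985.ME
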