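import Pool.Agent.Y985.ME.Comb
import Pool.Agent.TH992.T.Up

/-!
All pieces of the path at the same time: the time and the number of the visited blocks.
-/

set_option autoImplicit false

namespace Pool.Agent.Y985.ME

open H974 Finset H342P H984P H984N TH992.T

/-- The number of visited states in a block, upper bound by a local variable. -/
noncomputable def Xq (D : Dm) (W : ℤ) (q : Vtx) (F : Finset Edg) : ℝ :=
  Nb (xs D) W.toNat (q.1 * W) (q.2 * W) F

theorem Xq_loc {C : ℝ} (hC : 0 < C) (hU : TwoUp C (1/4)) {D : Dm} {W : ℤ} (hW : 1 ≤ W) {q : Vtx}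
    {F : Finset Edg} (hF : F ⊆ D.edges) : Xq D W q F = Xq D W q (F ∩ Lam D W q) := by
  have hfam := xs_fam hC hU D
  unfold Xq Nb
  refine sum_congr rfl fun v hv => ?_
  have hW2 : ((W.toNat : ℕ) : ℤ) = W := Int.toNat_of_nonneg (by omega)
  rw [mem_Bq, hW2] at hv
  rw [hfam.loc _ v F hF, hfam.loc _ v (F ∩ Lam D W q) (inter_subset_left.trans hF)]
  congr 1
  rw [inter_assoc, inter_comm (Lam D W q), inter_assoc, hW2]
  congr 1
  have hsub : RE (v.1 - W) (v.1 + W) (v.2 - W) (v.2 + W) ∩ D.edges ⊆ Lam D W q := by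
    rintro ⟨x, y, _ | _⟩ he
    · rw [mem_inter] at he
      unfold Dm.edges at he
      rw [mem_RE_false, mem_RE_false] at he
      unfold Lam
      rw [mem_RE_false]
      refine ⟨max_le he.2.1 ?_, le_min he.2.2.1 ?_, max_le he.2.2.2.1 ?_, lt_min he.2.2.2.2 ?_⟩
      · omega
      · omega
      · omega
      · omega
    · rw [mem_inter] at he
      unfold Dm.edges at he
      rw [mem_RE_true, mem_RE_true] at he
      unfold Lam
      rw [mem_RE_true]
      refine ⟨max_le he.2.1 ?_, lt_min he.2.2.1 ?_, max_le he.2.2.2.1 ?_, le_min he.2.2.2.2 ?_⟩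
      · omega
      · omega
      · omega
      · omega
  ext e
  rw [mem_inter, mem_inter, mem_inter]
  constructor
  · rintro ⟨h1, h2⟩
    exact ⟨h1, h2, hsub (mem_inter.mpr ⟨h1, h2⟩)⟩
  · rintro ⟨h1, h2, -⟩
    exact ⟨h1, h2⟩

open Classical in
/-- the time in a block -/
theorem time_le {D : Dm} (hD : D.Ok) {F : Finset Edg} (hF : F ⊆ D.edges) {W : ℤ} (hW : 1 ≤ W)
    (q : Vtx) {i j : ℕ} (hj : j ≤ D.len F) :
    (((Finset.Icc i j).filter (fun t => blk W (D.walk F t).1 = q)).card : ℝ) ≤ Xq D W q F := by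
  have e := Moments_sum hD hF (fun σ => ind (blk W σ.1 = q))
  have e0 : (((Finset.Icc i j).filter (fun t => blk W (D.walk F t).1 = q)).card : ℝ) ≤
      (((Finset.range (D.len F + 1)).filter (fun t => blk W (D.walk F t).1 = q)).card : ℝ) := by
    have : (Finset.Icc i j).filter (fun t => blk W (D.walk F t).1 = q) ⊆
        (Finset.range (D.len F + 1)).filter (fun t => blk W (D.walk F t).1 = q) := by
      intro t ht
      rw [mem_filter, mem_Icc] at ht
      rw [mem_filter, mem_range]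
      exact ⟨by omega, ht.2⟩
    exact_mod_cast card_le_card this
  have e1 : (((Finset.range (D.len F + 1)).filter
        (fun t => blk W (D.walk F t).1 = q)).card : ℝ) =
      ∑ i ∈ Finset.range (D.len F + 1), ind (blk W (D.walk F i).1 = q) := by
    rw [card_filter]
    push_cast
    refine sum_congr rfl fun i _ => ?_
    split_ifs with h
    · rw [ind_of h]
    · rw [ind_not_of h]
  have hW2 : ((W.toNat : ℕ) : ℤ) = W := Int.toNat_of_nonneg (by omega)
  refine e0.trans ?_
  rw [e1, e]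
  unfold Dm.states Xq Nb
  rw [sum_product]
  have hterm : ∀ w ∈ Finset.Icc D.l D.r ×ˢ Finset.Icc 0 D.h,
      ∑ q' : Q4, ind (D.Vis F (w, q')) * ind (blk W (w, q').1 = q) ≤
        if w ∈ Bq (q.1 * W) (q.2 * W) W.toNat then xs D W.toNat w F else 0 := by
    intro w hw
    rw [mem_product, mem_Icc, mem_Icc] at hw
    split_ifs with hwB
    · unfold xs
      refine sum_le_sum fun q _ => ?_
      rw [if_pos (xs_mem' q hw)]
      refine (mul_le_of_le_one_right (ind_nonneg _) (ind_le_one _)).trans ?_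
      refine ind_mono fun h => ?_
      rcases le_or_gt (min ((W.toNat : ℕ) : ℤ) (D.bd w)) 0 with hm | hm
      · exact Or.inl hm
      · exact Or.inr (vis_two hD hF h hm (min_le_right _ _))
    · refine le_of_eq (sum_eq_zero fun q' _ => ?_)
      have h1 : ¬ (blk W (w, q').1 = q) := by
        intro h
        apply hwB
        rw [mem_Bq, hW2, ← h]
        unfold blk
        simp only
        have a1 := Int.ediv_mul_le w.1 (by omega : W ≠ 0)
        have a2 := Int.lt_ediv_add_one_mul_self w.1 (by omega : 0 < W)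
        have a3 := Int.ediv_mul_le w.2 (by omega : W ≠ 0)
        have a4 := Int.lt_ediv_add_one_mul_self w.2 (by omega : 0 < W)
        rw [add_mul, one_mul] at a2 a4
        exact ⟨⟨a1, a2⟩, a3, a4⟩
      rw [ind_not_of h1, mul_zero]
  refine (sum_le_sum hterm).trans ?_
  rw [← sum_filter]
  refine sum_le_sum_of_subset_of_nonneg ?_ fun w _ _ => ?_
  · intro w hw
    exact (mem_filter.1 hw).2
  · unfold xs
    refine sum_nonneg fun q _ => ?_
    split_ifs
    · exact ind_nonneg _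
    · exact le_refl _

/-- the time of a piece is the sum over its blocks -/
theorem dur_le {D : Dm} (hD : D.Ok) {F : Finset Edg} (hF : F ⊆ D.edges) {W : ℤ} (hW : 1 ≤ W)
    {i j : ℕ} (hij : i ≤ j) (hj : j ≤ D.len F) :
    ((j - i : ℕ) : ℝ) ≤ ∑ q ∈ Vb D W i j F, Xq D W q F := by
  classical
  have h1 : (Finset.Icc i j).card = ∑ q ∈ Vb D W i j F,
      ((Finset.Icc i j).filter (fun t => blk W (D.walk F t).1 = q)).card :=
    card_eq_sum_card_image _ _
  have h2 : ((j - i : ℕ) : ℝ) ≤ ((Finset.Icc i j).card : ℝ) := by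
    rw [Nat.card_Icc]
    exact_mod_cast (by omega : j - i ≤ j + 1 - i)
  refine h2.trans ?_
  rw [h1]
  push_cast
  exact sum_le_sum fun q _ => time_le hD hF hW q hj

/-- the moments and the tail of the number in a block -/
theorem Xq_tail {C : ℝ} (hC : 0 < C) (hU : TwoUp C (1/4)) : ∃ l m : ℝ, 0 < l ∧ 0 < m ∧
    ∀ (D : Dm) (W : ℤ) (q : Vtx), 1 ≤ W →
      E D.edges (Xq D W q) ≤ m * (W : ℝ) ^ (7/4 : ℝ) ∧
      ∀ u : ℝ, 0 ≤ u → P D.edges (fun F => u * (W : ℝ) ^ (7/4 : ℝ) ≤ Xq D W q F) ≤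
        9 * Real.exp (-(u / l) ^ (8 : ℕ)) := by
  obtain ⟨l, hl, h⟩ := tail1 (a := 1/4) (C0 := 4 * (C + 1) * (1 + 8 * (1 + 1 / (1 - 1/4))))
    (by norm_num) (by norm_num) 4 (by positivity)
  refine ⟨l, 4 * (C + 1) * (1 + 8 * (1 + 1 / (1 - 1/4))), hl, by positivity, ?_⟩
  intro D W q hW
  have hW2 : ((W.toNat : ℕ) : ℤ) = W := Int.toNat_of_nonneg (by omega)
  have hW3 : ((W.toNat : ℕ) : ℝ) = (W : ℝ) := by exact_mod_cast hW2
  have hW1 : 1 ≤ W.toNat := by omega
  have hW0 : (0:ℝ) < W := by exact_mod_cast (by omega : 0 < W)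
  have e2 : (2 - 1/4 : ℝ) = 7/4 := by norm_num
  constructor
  · have h1 := (xs_fam hC hU D).mean W.toNat hW1 (q.1 * W) (q.2 * W)
    rw [e2, hW3] at h1
    unfold Xq Nb
    show Ex _ _ _ ≤ _
    rw [Ex_sum]
    exact h1
  · intro u hu
    have key := h (fun _ => (1/2:ℝ)) D.edges (xs D) (xs_fam hC hU D) W.toNat (q.1 * W) (q.2 * W) u
      hW1 hu
    have e1 : (u / l) ^ (2 / (1/4) : ℝ) = (u / l) ^ (8 : ℕ) := by
      rw [show (2 / (1/4) : ℝ) = ((8 : ℕ) : ℝ) by norm_num, Real.rpow_natCast]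
    rw [e1] at key
    refine le_trans ?_ key
    refine Pr_mono okh fun F hF hx => ?_
    unfold Yb
    rw [e2, hW3, le_div_iff₀ (Real.rpow_pos_of_pos hW0 _)]
    exact hx

theorem sd_blk {W : ℤ} (hW : 1 ≤ W) {u v : Vtx} (h : sd u v ≤ W) : sd (blk W u) (blk W v) ≤ 1 := by
  have a1 : W * (u.1 / W) ≤ u.1 := Int.mul_ediv_self_le (by omega)
  have a2 : u.1 < W * (u.1 / W) + W := Int.lt_mul_ediv_self_add (by omega)
  have a3 : W * (v.1 / W) ≤ v.1 := Int.mul_ediv_self_le (by omega)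
  have a4 : v.1 < W * (v.1 / W) + W := Int.lt_mul_ediv_self_add (by omega)
  have b1 : W * (u.2 / W) ≤ u.2 := Int.mul_ediv_self_le (by omega)
  have b2 : u.2 < W * (u.2 / W) + W := Int.lt_mul_ediv_self_add (by omega)
  have b3 : W * (v.2 / W) ≤ v.2 := Int.mul_ediv_self_le (by omega)
  have b4 : v.2 < W * (v.2 / W) + W := Int.lt_mul_ediv_self_add (by omega)
  rw [det_sd_eq] at h ⊢
  unfold blk
  simp only
  have key : ∀ s t : ℤ, W * s < W * t + 2 * W → s - t ≤ 1 := by
    intro s t hst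
    by_contra hcon
    push Not at hcon
    have : W * (t + 2) ≤ W * s := mul_le_mul_of_nonneg_left (by omega) (by omega)
    have e : W * (t + 2) = W * t + 2 * W := by ring
    omega
  have c1 := key (u.1 / W) (v.1 / W) (by omega)
  have c2 := key (v.1 / W) (u.1 / W) (by omega)
  have c3 := key (u.2 / W) (v.2 / W) (by omega)
  have c4 := key (v.2 / W) (u.2 / W) (by omega)
  omega

/-- The blocks with distance at most one. -/
noncomputable def nb1 (p : Vtx) : Finset Vtx :=
  Finset.Icc (p.1 - 1) (p.1 + 1) ×ˢ Finset.Icc (p.2 - 1) (p.2 + 1)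

theorem mem_nb1 {p q : Vtx} : q ∈ nb1 p ↔ sd p q ≤ 1 := by
  unfold nb1
  rw [mem_product, mem_Icc, mem_Icc, det_sd_eq]
  omega

theorem card_nb1 (p : Vtx) : (nb1 p).card = 9 := by
  unfold nb1
  rw [card_product, Int.card_Icc, Int.card_Icc]
  have e1 : (p.1 + 1 + 1 - (p.1 - 1)).toNat = 3 := by omega
  have e2 : (p.2 + 1 + 1 - (p.2 - 1)).toNat = 3 := by omega
  rw [e1, e2]

open Classical in
/-- the number of the good blocks of a piece -/
theorem good_le {D : Dm} {F : Finset Edg} {W : ℤ} (hW : 1 ≤ W) {c : ℝ} {Bad : Vtx → Prop}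
    (hslow : ∀ q, ¬ Bad q → ∀ k l : ℕ, k ≤ l → l ≤ D.len F →
      (∀ t, k ≤ t → t ≤ l → sd (blk W (D.walk F t).1) q ≤ 1) →
      W ≤ sd (D.walk F k).1 (D.walk F l).1 → c * (W : ℝ) ^ (7/4 : ℝ) ≤ ((l - k : ℕ) : ℝ))
    {i j : ℕ} (hij : i ≤ j) (hj : j ≤ D.len F) :
    (Vb D W i j F).card ≤ 9 ∨
      c * (W : ℝ) ^ (7/4 : ℝ) * (((Vb D W i j F).filter (fun q => ¬ Bad q)).card : ℝ) ≤
        9 * (((j - i : ℕ) : ℝ) + 1) := by
  by_cases hsmall : ∃ τ, i ≤ τ ∧ τ ≤ j ∧ ∀ t, i ≤ t → t ≤ j →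
      sd (D.walk F τ).1 (D.walk F t).1 < W
  · left
    obtain ⟨τ, h1, h2, h3⟩ := hsmall
    have hsub : Vb D W i j F ⊆ nb1 (blk W (D.walk F τ).1) := by
      intro q hq
      unfold Vb at hq
      rw [mem_image] at hq
      obtain ⟨t, ht, rfl⟩ := hq
      rw [mem_Icc] at ht
      rw [mem_nb1]
      exact sd_blk hW (h3 t ht.1 ht.2).le
    refine (card_le_card hsub).trans ?_
    rw [card_nb1]
  · right
    push Not at hsmall
    obtain ⟨G, hG⟩ : ∃ G : Finset Vtx, G = (Vb D W i j F).filter (fun q => ¬ Bad q) := ⟨_, rfl⟩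
    rw [← hG]
    have hone : ∀ q ∈ G, c * (W : ℝ) ^ (7/4 : ℝ) ≤
        (((Finset.Icc i j).filter (fun t => sd (blk W (D.walk F t).1) q ≤ 1)).card : ℝ) := by
      intro q hq
      rw [hG, mem_filter] at hq
      obtain ⟨hqV, hqB⟩ := hq
      unfold Vb at hqV
      rw [mem_image] at hqV
      obtain ⟨τ, hτ, rfl⟩ := hqV
      rw [mem_Icc] at hτ
      obtain ⟨t, ht1, ht2, ht3⟩ := hsmall τ hτ.1 hτ.2
      have main : ∀ k l : ℕ, i ≤ k → k ≤ l → l ≤ j → W ≤ sd (D.walk F k).1 (D.walk F l).1 →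
          (∀ s, k ≤ s → s ≤ l → sd (D.walk F τ).1 (D.walk F s).1 ≤ W) →
          c * (W : ℝ) ^ (7/4 : ℝ) ≤ (((Finset.Icc i j).filter
            (fun t => sd (blk W (D.walk F t).1) (blk W (D.walk F τ).1) ≤ 1)).card : ℝ) := by
        intro k l hik hkl hlj hsd hnear
        have h1 := hslow _ hqB k l hkl (hlj.trans hj) (fun s hs1 hs2 => by
          rw [det_sd_comm]
          exact sd_blk hW (hnear s hs1 hs2)) hsd
        refine h1.trans ?_
        have h2 : Finset.Icc k l ⊆ (Finset.Icc i j).filter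
            (fun t => sd (blk W (D.walk F t).1) (blk W (D.walk F τ).1) ≤ 1) := by
          intro s hs
          rw [mem_Icc] at hs
          rw [mem_filter, mem_Icc, det_sd_comm]
          exact ⟨⟨by omega, by omega⟩, sd_blk hW (hnear s hs.1 hs.2)⟩
        have h3 := card_le_card h2
        rw [Nat.card_Icc] at h3
        exact_mod_cast (by omega : l - k ≤ _)
      rcases Nat.le_total τ t with h | h
      · obtain ⟨l, e1, e2, e3, e4⟩ := det_first (fun s => (D.walk F s).1)
          (fun s => walk_step D F s) h ht3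
        refine main τ l hτ.1 e1 (e2.trans ht2) e3 (fun s s1 s2 => ?_)
        have := e4 s s1 s2
        omega
      · obtain ⟨k, e1, e2, e3, e4⟩ := det_last (fun s => (D.walk F s).1)
          (fun s => walk_step D F s) h ht3
        refine main k τ (ht1.trans e1) e2 hτ.2 (by rw [det_sd_comm]; exact e3) (fun s s1 s2 => ?_)
        have := e4 s s1 s2
        omega
    have hsum : c * (W : ℝ) ^ (7/4 : ℝ) * (G.card : ℝ) ≤ ∑ q ∈ G,
        (((Finset.Icc i j).filter (fun t => sd (blk W (D.walk F t).1) q ≤ 1)).card : ℝ) := by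
      refine le_trans (le_of_eq ?_) (sum_le_sum hone)
      rw [sum_const, nsmul_eq_mul, mul_comm]
    refine hsum.trans ?_
    have hdc : ∑ q ∈ G, ((Finset.Icc i j).filter (fun t => sd (blk W (D.walk F t).1) q ≤ 1)).card ≤
        ∑ t ∈ Finset.Icc i j, (nb1 (blk W (D.walk F t).1)).card := by
      have h1 : ∀ q, ((Finset.Icc i j).filter (fun t => sd (blk W (D.walk F t).1) q ≤ 1)).card =
          ∑ t ∈ Finset.Icc i j, if sd (blk W (D.walk F t).1) q ≤ 1 then 1 else 0 := fun q =>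
        card_filter _ _
      rw [sum_congr rfl fun q _ => h1 q, sum_comm]
      refine sum_le_sum fun t _ => ?_
      rw [← card_filter]
      refine card_le_card fun q hq => ?_
      rw [mem_filter] at hq
      exact mem_nb1.mpr hq.2
    rw [sum_congr rfl fun t _ => card_nb1 _, sum_const, Nat.card_Icc, smul_eq_mul] at hdc
    have h2 : ((∑ q ∈ G, ((Finset.Icc i j).filter
        (fun t => sd (blk W (D.walk F t).1) q ≤ 1)).card : ℕ) : ℝ) ≤ (((j + 1 - i) * 9 : ℕ) : ℝ) := by
      exact_mod_cast hdc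
    push_cast at h2
    refine h2.trans (le_of_eq ?_)
    rw [show j + 1 - i = (j - i) + 1 by omega]
    push_cast
    ring

end Pool.Agent.Y985.ME
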