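import Pool.Agent.Y985.ME.Lat

/-!
All pieces of the path at the same time: the time is comparable with the number of the visited
blocks.
-/

set_option autoImplicit false

namespace Pool.Agent.Y985.ME

open H974 Finset H342P H984P H984N TH992.T

/-- The good event: time and number of visited blocks are comparable for all pieces. -/
def Cmp (C : ℝ) (D : Dm) (n : ℝ) (W : ℤ) (F : Finset Edg) : Prop :=
  ∀ i j : ℕ, i ≤ j → j ≤ D.len F →
    ((j - i : ℕ) : ℝ) ≤ C * (W : ℝ) ^ (7/4 : ℝ) *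
      (((Vb D W i j F).card : ℝ) + (n / W) ^ (7/4 - 1/40 : ℝ)) ∧
    ((Vb D W i j F).card : ℝ) ≤ C * (((j - i : ℕ) : ℝ) / (W : ℝ) ^ (7/4 : ℝ) +
      (n / W) ^ (7/4 - 1/40 : ℝ))

theorem exp_pow {x : ℝ} (hx : 0 < x) (k : ℕ) : Real.exp (-x) ≤ (k.factorial : ℝ) / x ^ k := by
  have h := Real.pow_div_factorial_le_exp x hx.le k
  rw [Real.exp_neg, le_div_iff₀ (by positivity), ← div_eq_inv_mul, div_le_iff₀ (Real.exp_pos x)]
  rw [div_le_iff₀ (by positivity)] at h
  linarith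

theorem lat {C0 : ℝ} (hC0 : 0 < C0) (hU : TwoUp C0 (1/4)) (hBLK : S_BLK) (hRev : S_REV)
    (hFM : S_FM) {κ : ℝ} (hκ : 0 < κ) : ∃ C : ℝ, 0 < C ∧ ∀ (D : Dm) (n : ℝ) (W : ℤ),
    D.Shape κ n → C ≤ W → C * W ≤ n →
    P D.edges (fun F => ¬ Cmp C D n W F) ≤ C * (W / n) ^ (1/20 : ℝ) := by
  classical
  obtain ⟨c, s, hc, hs, hblk⟩ := hBLK (1/98) (by norm_num)
  obtain ⟨CM, hCM, hmain⟩ := mainl hRev hFM hκ
  obtain ⟨l, m, hl, hm, htail⟩ := Xq_tail hC0 hU
  obtain ⟨A, hA⟩ : ∃ A : ℝ, A = 81 * (((11 : ℕ).factorial : ℝ) * (l ^ 8) ^ 11) := ⟨_, rfl⟩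
  have hA0 : 0 < A := by rw [hA]; positivity
  obtain ⟨C, hC⟩ : ∃ C : ℝ, C = 1 + s + s / κ + 2 * CM + A + 49 * m + CM * (1 + m) +
    18 / c + 4 * CM + 18 := ⟨_, rfl⟩
  have e1 : 0 < s / κ := by positivity
  have e2 : 0 < 18 / c := by positivity
  have e3 : 0 < CM * (1 + m) := by positivity
  have hC1 : 1 ≤ C := by rw [hC]; linarith
  refine ⟨C, by linarith, ?_⟩
  intro D n W hS hCW hCn
  have hD := hS.ok
  have hW1 : 1 ≤ W := by
    have : (1:ℝ) ≤ W := hC1.trans hCW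
    exact_mod_cast this
  have hW0 : (0:ℝ) < W := by exact_mod_cast (by omega : 0 < W)
  have hWn : (W : ℝ) ≤ n := by nlinarith
  have hn : 0 < n := lt_of_lt_of_le hW0 hWn
  have hMW : CM ≤ W := by refine le_trans ?_ hCW; rw [hC]; linarith
  have hMn : CM * W ≤ n := by
    refine le_trans (mul_le_mul_of_nonneg_right ?_ hW0.le) hCn
    rw [hC]; linarith
  have hsW : s ≤ W := by refine le_trans ?_ hCW; rw [hC]; linarith
  have hsn : s * W ≤ κ * n := by
    have h1 : s / κ * W ≤ n := by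
      refine le_trans (mul_le_mul_of_nonneg_right ?_ hW0.le) hCn
      rw [hC]; linarith
    calc s * W = κ * (s / κ * W) := by field_simp
      _ ≤ κ * n := mul_le_mul_of_nonneg_left h1 hκ.le
  obtain ⟨U, hUd⟩ : ∃ U : ℝ, U = n / W := ⟨_, rfl⟩
  have hU1 : 1 ≤ U := by rw [hUd, le_div_iff₀ hW0]; linarith
  have hU0 : 0 < U := by linarith
  have hUinv : (W / n : ℝ) = U⁻¹ := by rw [hUd, inv_div]
  have hWp : 0 < (W : ℝ) ^ (7/4 : ℝ) := Real.rpow_pos_of_pos hW0 _
  obtain ⟨f, hf⟩ : ∃ f : ℝ, f = U ^ (7/4 - 1/40 : ℝ) := ⟨_, rfl⟩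
  have hf1 : 1 ≤ f := by rw [hf]; exact Real.one_le_rpow hU1 (by norm_num)
  obtain ⟨K, hK⟩ : ∃ K : ℝ, K = U ^ (1/40 : ℝ) := ⟨_, rfl⟩
  have hK1 : 1 ≤ K := by rw [hK]; exact Real.one_le_rpow hU1 (by norm_num)
  obtain ⟨Bad, hloc, hpr, hslow⟩ := hblk D W hD hsW (hsn.trans hS.l_ge) (hsn.trans hS.r_ge)
    (hsn.trans hS.h_ge)
  -- first family
  obtain ⟨Y1, hY1⟩ : ∃ Y1 : Vtx → Finset Edg → ℝ, Y1 = fun q F => ind (Bad q F) := ⟨_, rfl⟩
  have p1 := hmain D n W hS hMW hMn Y1 (1/98) (by norm_num)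
    (fun q F => by rw [hY1]; exact ind_congr (hloc q F))
    (fun q F => by rw [hY1]; exact ind_nonneg _)
    (fun q F => by
      rw [hY1, ← hUd, ← hK]
      exact (ind_le_one _).trans hK1)
    (fun q hq => by rw [hY1]; exact hpr q hq)
  -- second family
  obtain ⟨Y2, hY2⟩ : ∃ Y2 : Vtx → Finset Edg → ℝ,
    Y2 = fun q F => min (max (Xq D W q (F ∩ Lam D W q) / (W : ℝ) ^ (7/4 : ℝ)) 0) K := ⟨_, rfl⟩
  have hXnn : ∀ q F, F ⊆ D.edges → 0 ≤ Xq D W q F := fun q F hF =>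
    Nb_nonneg (xs_fam hC0 hU D) _ _ _ _
  have p2 := hmain D n W hS hMW hMn Y2 m hm.le
    (fun q F => by rw [hY2]; simp only; rw [inter_assoc, inter_self])
    (fun q F => by rw [hY2]; exact le_min (le_max_right _ _) (by linarith))
    (fun q F => by
      rw [hY2, ← hUd, ← hK]
      exact min_le_right _ _)
    (fun q hq => by
      have h1 : E D.edges (Y2 q) ≤ E D.edges (fun F => Xq D W q F * ((W : ℝ) ^ (7/4 : ℝ))⁻¹) := by
        refine Ex_mono okh fun F hF => ?_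
        rw [hY2]
        refine (min_le_left _ _).trans ?_
        rw [← Xq_loc hC0 hU hW1 hF, div_eq_mul_inv]
        exact max_le le_rfl (mul_nonneg (hXnn q F hF) (by positivity))
      refine h1.trans ?_
      show Ex _ _ _ ≤ _
      rw [Ex_mul_right, ← div_eq_mul_inv, div_le_iff₀ hWp]
      exact (htail D W q hW1).1)
  -- the truncation
  have p3 : P D.edges (fun F => ∃ q ∈ Bks D W, K * (W : ℝ) ^ (7/4 : ℝ) ≤ Xq D W q F) ≤
      A * U⁻¹ ^ (1/20 : ℝ) := by
    refine (Pr_exists_le' _ _).trans ?_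
    have h1 : ∀ q ∈ Bks D W, P D.edges (fun F => K * (W : ℝ) ^ (7/4 : ℝ) ≤ Xq D W q F) ≤
        9 * (((11 : ℕ).factorial : ℝ) * (l ^ 8) ^ 11 * U ^ (-(11/5) : ℝ)) := by
      intro q _
      refine ((htail D W q hW1).2 K (by linarith)).trans ?_
      refine mul_le_mul_of_nonneg_left ?_ (by norm_num)
      have hx : 0 < (K / l) ^ 8 := by positivity
      refine (exp_pow hx 11).trans (le_of_eq ?_)
      have e4 : ((K / l) ^ 8) ^ 11 = U ^ (11/5 : ℝ) / (l ^ 8) ^ 11 := by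
        rw [div_pow, div_pow, hK, ← Real.rpow_natCast, ← Real.rpow_natCast, ← Real.rpow_mul hU0.le,
          ← Real.rpow_mul hU0.le]
        congr 2
        norm_num
      rw [e4, Real.rpow_neg hU0.le]
      have : 0 < U ^ (11/5 : ℝ) := Real.rpow_pos_of_pos hU0 _
      field_simp
    refine (sum_le_sum h1).trans ?_
    rw [sum_const, nsmul_eq_mul]
    have h2 := card_Bks hS hW1 hWn
    rw [← hUd] at h2
    have h3 : 0 ≤ 9 * (((11 : ℕ).factorial : ℝ) * (l ^ 8) ^ 11 * U ^ (-(11/5) : ℝ)) := by positivity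
    refine (mul_le_mul_of_nonneg_right h2 h3).trans ?_
    have h4 : U ^ 2 * U ^ (-(11/5) : ℝ) ≤ U⁻¹ ^ (1/20 : ℝ) := by
      rw [← Real.rpow_natCast, ← Real.rpow_add hU0, Real.inv_rpow hU0.le, ← Real.rpow_neg hU0.le]
      refine Real.rpow_le_rpow_of_exponent_le hU1 ?_
      norm_num
    calc 9 * U ^ 2 * (9 * (((11 : ℕ).factorial : ℝ) * (l ^ 8) ^ 11 * U ^ (-(11/5) : ℝ)))
        = A * (U ^ 2 * U ^ (-(11/5) : ℝ)) := by rw [hA]; ring
      _ ≤ A * U⁻¹ ^ (1/20 : ℝ) := mul_le_mul_of_nonneg_left h4 hA0.le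
  rw [← hUd] at p1 p2
  rw [hUinv] at p1 p2
  rw [← hf] at p1 p2
  rw [hUinv]
  -- the event
  have hev : P D.edges (fun F => ¬ Cmp C D n W F) ≤ P D.edges (fun F =>
      ((∃ i j : ℕ, i ≤ j ∧ j ≤ D.len F ∧ 49 * (1/98) * ((Vb D W i j F).card : ℝ) +
        CM * (1 + 1/98) * f < ∑ q ∈ Vb D W i j F, Y1 q F) ∨
      (∃ i j : ℕ, i ≤ j ∧ j ≤ D.len F ∧ 49 * m * ((Vb D W i j F).card : ℝ) +
        CM * (1 + m) * f < ∑ q ∈ Vb D W i j F, Y2 q F)) ∨
      (∃ q ∈ Bks D W, K * (W : ℝ) ^ (7/4 : ℝ) ≤ Xq D W q F)) := by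
    refine Pr_mono okh fun F hF hn1 => ?_
    by_contra hcon
    push Not at hcon
    obtain ⟨⟨h1, h2⟩, h3⟩ := hcon
    apply hn1
    intro i j hij hj
    rw [← hUd, ← hf]
    have g1 := h1 i j hij hj
    have g2 := h2 i j hij hj
    have hV0 : (0:ℝ) ≤ ((Vb D W i j F).card : ℝ) := Nat.cast_nonneg _
    constructor
    · -- the time
      have hX : ∀ q ∈ Vb D W i j F, Xq D W q F = (W : ℝ) ^ (7/4 : ℝ) * Y2 q F := by
        intro q hq
        have hqB : q ∈ Bks D W := by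
          unfold Vb at hq
          rw [mem_image] at hq
          obtain ⟨t, -, rfl⟩ := hq
          exact blk_mem hD hW1 hF t
        have h4 := h3 q hqB
        have h5 : Xq D W q F / (W : ℝ) ^ (7/4 : ℝ) ≤ K := by
          rw [div_le_iff₀ hWp]
          exact h4.le
        rw [hY2]
        simp only
        rw [← Xq_loc hC0 hU hW1 hF, max_eq_left (div_nonneg (hXnn q F hF) hWp.le), min_eq_left h5]
        field_simp
      refine (dur_le hD hF hW1 hij hj).trans ?_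
      rw [sum_congr rfl hX, ← mul_sum]
      have h6 : (W : ℝ) ^ (7/4 : ℝ) * ∑ q ∈ Vb D W i j F, Y2 q F ≤
          (W : ℝ) ^ (7/4 : ℝ) * (49 * m * ((Vb D W i j F).card : ℝ) + CM * (1 + m) * f) :=
        mul_le_mul_of_nonneg_left g2 hWp.le
      refine h6.trans ?_
      have h7 : 49 * m * ((Vb D W i j F).card : ℝ) + CM * (1 + m) * f ≤
          C * (((Vb D W i j F).card : ℝ) + f) := by
        have k1 : 49 * m ≤ C := by rw [hC]; linarith
        have k2 : CM * (1 + m) ≤ C := by rw [hC]; linarith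
        have k3 := mul_le_mul_of_nonneg_right k1 hV0
        have k4 := mul_le_mul_of_nonneg_right k2 (show 0 ≤ f by linarith)
        linarith
      calc (W : ℝ) ^ (7/4 : ℝ) * (49 * m * ((Vb D W i j F).card : ℝ) + CM * (1 + m) * f)
          ≤ (W : ℝ) ^ (7/4 : ℝ) * (C * (((Vb D W i j F).card : ℝ) + f)) :=
            mul_le_mul_of_nonneg_left h7 hWp.le
        _ = C * (W : ℝ) ^ (7/4 : ℝ) * (((Vb D W i j F).card : ℝ) + f) := by ring
    · -- the number
      have ht0 : (0:ℝ) ≤ ((j - i : ℕ) : ℝ) := Nat.cast_nonneg _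
      have htW : 0 ≤ ((j - i : ℕ) : ℝ) / (W : ℝ) ^ (7/4 : ℝ) := by positivity
      rcases good_le (F := F) hW1 (c := c) (Bad := fun q => Bad q F) (fun q hq => hslow F hF q hq)
        hij hj with h4 | h4
      · have h5 : ((Vb D W i j F).card : ℝ) ≤ 9 := by exact_mod_cast h4
        have k1 : 9 ≤ C := by rw [hC]; linarith
        nlinarith
      · have h5 : ∑ q ∈ Vb D W i j F, Y1 q F =
            (((Vb D W i j F).filter (fun q => Bad q F)).card : ℝ) := by
          rw [hY1, card_filter]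
          push_cast
          refine sum_congr rfl fun q _ => ?_
          split_ifs with h
          · rw [ind_of h]
          · rw [ind_not_of h]
        rw [h5] at g1
        have h6 := card_filter_add_card_filter_not (s := Vb D W i j F) (fun q => Bad q F)
        have h7 : (((Vb D W i j F).filter (fun q => Bad q F)).card : ℝ) +
            (((Vb D W i j F).filter (fun q => ¬ Bad q F)).card : ℝ) =
            ((Vb D W i j F).card : ℝ) := by exact_mod_cast h6
        have h8 : (((Vb D W i j F).filter (fun q => ¬ Bad q F)).card : ℝ) ≤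
            9 / c * (((j - i : ℕ) : ℝ) / (W : ℝ) ^ (7/4 : ℝ)) + 9 / c := by
          have h9 : (((Vb D W i j F).filter (fun q => ¬ Bad q F)).card : ℝ) ≤
              9 * (((j - i : ℕ) : ℝ) + 1) / (c * (W : ℝ) ^ (7/4 : ℝ)) := by
            rw [le_div_iff₀ (by positivity)]
            linarith
          refine h9.trans ?_
          have hWp1 : 1 ≤ (W : ℝ) ^ (7/4 : ℝ) :=
            Real.one_le_rpow (by exact_mod_cast hW1) (by norm_num)
          have e4 : 9 * (((j - i : ℕ) : ℝ) + 1) / (c * (W : ℝ) ^ (7/4 : ℝ)) =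
              9 / c * (((j - i : ℕ) : ℝ) / (W : ℝ) ^ (7/4 : ℝ)) +
              9 / c * (1 / (W : ℝ) ^ (7/4 : ℝ)) := by
            field_simp
          rw [e4]
          have e5 : 1 / (W : ℝ) ^ (7/4 : ℝ) ≤ 1 := by
            rw [div_le_one hWp]
            exact hWp1
          have e6 : 9 / c * (1 / (W : ℝ) ^ (7/4 : ℝ)) ≤ 9 / c * 1 :=
            mul_le_mul_of_nonneg_left e5 (by positivity)
          linarith
        have e9 : 18 / c = 2 * (9 / c) := by ring
        have k1 : 2 * (9 / c) ≤ C := by rw [hC, ← e9]; linarith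
        have k2 : 4 * CM + 2 * (9 / c) ≤ C := by rw [hC, ← e9]; linarith
        have k3 := mul_le_mul_of_nonneg_right k1 htW
        have k4 := mul_le_mul_of_nonneg_right k2 (show 0 ≤ f by linarith)
        have k5 : 0 < 9 / c := by positivity
        have k6 : 9 / c ≤ 9 / c * f := le_mul_of_one_le_right k5.le hf1
        have k7 : 0 ≤ CM * f := by positivity
        nlinarith
  refine hev.trans ((Pr_or_le okh _ _ _).trans ?_)
  have h1 := Pr_or_le okh D.edges (fun F => ∃ i j : ℕ, i ≤ j ∧ j ≤ D.len F ∧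
      49 * (1/98) * ((Vb D W i j F).card : ℝ) +
        CM * (1 + 1/98) * f < ∑ q ∈ Vb D W i j F, Y1 q F) (fun F =>
      (∃ i j : ℕ, i ≤ j ∧ j ≤ D.len F ∧ 49 * m * ((Vb D W i j F).card : ℝ) +
        CM * (1 + m) * f < ∑ q ∈ Vb D W i j F, Y2 q F))
  have hp : 0 ≤ U⁻¹ ^ (1/20 : ℝ) := by positivity
  have k1 : CM + CM + A ≤ C := by rw [hC]; linarith
  have k2 := mul_le_mul_of_nonneg_right k1 hp
  have h2 := add_le_add h1 p3
  refine h2.trans ?_
  have h3 := add_le_add p1 p2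
  linarith

end Pool.Agent.Y985.ME
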