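import Pool.Agent.Y985.ME.Stm
import Pool.Agent.H984R4.NP.Walk
import Pool.Agent.H984R4.NP.Det

/-!
The path before it comes near a block does not depend on the edges near the block.
-/

set_option autoImplicit false

namespace Pool.Agent.Y985.ME

open H974 Finset H342P H984P H984N

/-- The first time near the block `q` is `t`. -/
def Hit (D : Dm) (W : ℤ) (q : Vtx) (F : Finset Edg) (t : ℕ) : Prop :=
  t ≤ D.len F ∧ sd (blk W (D.walk F t).1) q ≤ 3 ∧ ∀ s < t, ¬ sd (blk W (D.walk F s).1) q ≤ 3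

open Classical in
/-- Number of the blocks which the path comes near before the time `t`. -/
noncomputable def Nt (D : Dm) (W : ℤ) (F : Finset Edg) (t : ℕ) : ℕ :=
  ((Bks D W).filter (fun q => ∃ s < t, sd (blk W (D.walk F s).1) q ≤ 3)).card

theorem Nt_mono (D : Dm) (W : ℤ) (F : Finset Edg) {s t : ℕ} (h : s ≤ t) : Nt D W F s ≤ Nt D W F t := by
  classical
  unfold Nt
  refine card_le_card fun q hq => ?_
  rw [mem_filter] at hq ⊢
  obtain ⟨h1, u, hu, h2⟩ := hq
  exact ⟨h1, u, by omega, h2⟩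

theorem sd_near {W : ℤ} (hW : 1 ≤ W) {q v : Vtx} (h1 : q.1 * W - 2 * W ≤ v.1)
    (h2 : v.1 ≤ q.1 * W + 3 * W) (h3 : q.2 * W - 2 * W ≤ v.2) (h4 : v.2 ≤ q.2 * W + 3 * W) :
    sd (blk W v) q ≤ 3 := by
  rw [det_sd_eq]
  unfold blk
  have key : ∀ x y : ℤ, y * W - 2 * W ≤ x → x ≤ y * W + 3 * W → x / W - y ≤ 3 ∧ y - x / W ≤ 3 := by
    intro x y h1 h2
    have e1 : x / W < y + 4 := by
      rw [Int.ediv_lt_iff_lt_mul (by omega)]
      nlinarith
    have e2 : y - 2 ≤ x / W := by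
      rw [Int.le_ediv_iff_mul_le (by omega)]
      nlinarith
    omega
  have k1 := key _ _ h1 h2
  have k2 := key _ _ h3 h4
  simp only
  omega

theorem ae_notMem {D : Dm} {W : ℤ} (hW : 1 ≤ W) {q : Vtx} {σ : St}
    (h : ¬ sd (blk W σ.1) q ≤ 3) : ae σ ∉ Lam D W q := by
  intro hm
  apply h
  have key : ∀ v : Vtx, (src (ae σ) = v ∨ tgt (ae σ) = v) → sd (blk W v) q ≤ 3 := by
    intro v hv
    generalize ae σ = e at hm hv
    obtain ⟨x, y, _ | _⟩ := e
    · unfold Lam at hm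
      rw [mem_RE_false] at hm
      simp only [src_mk, tgt_false] at hv
      rcases hv with rfl | rfl
      · exact sd_near hW (by simp only; omega) (by simp only; omega) (by simp only; omega)
          (by simp only; omega)
      · exact sd_near hW (by simp only; omega) (by simp only; omega) (by simp only; omega)
          (by simp only; omega)
    · unfold Lam at hm
      rw [mem_RE_true] at hm
      simp only [src_mk, tgt_true] at hv
      rcases hv with rfl | rfl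
      · exact sd_near hW (by simp only; omega) (by simp only; omega) (by simp only; omega)
          (by simp only; omega)
      · exact sd_near hW (by simp only; omega) (by simp only; omega) (by simp only; omega)
          (by simp only; omega)
  apply key
  rcases p2_ends σ with ⟨h1, -⟩ | ⟨-, h1⟩
  · exact Or.inl h1
  · exact Or.inr h1

theorem nxt_cfg {D : Dm} {F G : Finset Edg} {σ : St} (h : ae σ ∈ F ↔ ae σ ∈ G) :
    nxt (D.cfg F) σ = nxt (D.cfg G) σ := by
  have e : ae σ ∈ D.cfg F ↔ ae σ ∈ D.cfg G := by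
    unfold Dm.cfg
    rw [Set.mem_union, Set.mem_union, mem_coe, mem_coe, h]
  by_cases h1 : ae σ ∈ D.cfg F
  · rw [nxt_open h1, nxt_open (e.mp h1)]
  · rw [nxt_closed h1, nxt_closed (fun h2 => h1 (e.mpr h2))]

/-- Before the path comes near the block it does not depend on the edges near the block. -/
theorem agree {D : Dm} {W : ℤ} (hW : 1 ≤ W) {q : Vtx} {F G : Finset Edg}
    (hFG : ∀ e, e ∉ Lam D W q → (e ∈ F ↔ e ∈ G)) {t : ℕ}
    (h : ∀ s < t, ¬ sd (blk W (D.walk F s).1) q ≤ 3) : ∀ s ≤ t, D.walk F s = D.walk G s := by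
  intro s
  induction s with
  | zero => intro _; rfl
  | succ s ih =>
    intro hs
    have ih' := ih (by omega)
    rw [walk_succ, walk_succ, ← ih']
    exact nxt_cfg (hFG _ (ae_notMem hW (h s (by omega))))

theorem le_len {D : Dm} (hD : D.Ok) {F : Finset Edg} (hF : F ⊆ D.edges) {t : ℕ} :
    t ≤ D.len F ↔ ∀ s < t, D.walk F s ≠ Dm.stop := by
  constructor
  · intro h s hs he
    have : D.len F ≤ s := Nat.sInf_le he
    omega
  · intro h
    by_contra hcon
    exact h _ (not_le.mp hcon) (walk_len hD hF)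

theorem hit_congr {D : Dm} (hD : D.Ok) {W : ℤ} (hW : 1 ≤ W) {q : Vtx} {F G : Finset Edg}
    (hF : F ⊆ D.edges) (hG : G ⊆ D.edges)
    (hFG : ∀ e, e ∉ Lam D W q → (e ∈ F ↔ e ∈ G)) {t : ℕ} (h : Hit D W q F t) :
    Hit D W q G t ∧ ∀ s ≤ t, D.walk F s = D.walk G s := by
  obtain ⟨h1, h2, h3⟩ := h
  have ha := agree hW hFG h3
  refine ⟨⟨?_, ?_, ?_⟩, ha⟩
  · rw [le_len hD hG]
    rw [le_len hD hF] at h1
    intro s hs
    rw [← ha s hs.le]
    exact h1 s hs
  · rw [← ha t le_rfl]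
    exact h2
  · intro s hs
    rw [← ha s hs.le]
    exact h3 s hs

theorem Nt_congr {D : Dm} {W : ℤ} {F G : Finset Edg} {t : ℕ}
    (h : ∀ s ≤ t, D.walk F s = D.walk G s) : Nt D W F t = Nt D W G t := by
  classical
  unfold Nt
  congr 1
  refine filter_congr fun q _ => ?_
  constructor
  · rintro ⟨s, hs, h1⟩
    exact ⟨s, hs, by rw [← h s hs.le]; exact h1⟩
  · rintro ⟨s, hs, h1⟩
    exact ⟨s, hs, by rw [h s hs.le]; exact h1⟩

theorem hit_unique {D : Dm} {W : ℤ} {q : Vtx} {F : Finset Edg} {s t : ℕ} (h1 : Hit D W q F s)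
    (h2 : Hit D W q F t) : s = t := by
  rcases Nat.lt_trichotomy s t with h | h | h
  · exact absurd h1.2.1 (h2.2.2 s h)
  · exact h
  · exact absurd h2.2.1 (h1.2.2 t h)

theorem tch_hit {D : Dm} {W : ℤ} {q : Vtx} {F : Finset Edg} : Tch D W q F ↔ ∃ t, Hit D W q F t := by
  classical
  constructor
  · rintro ⟨t, ht, h⟩
    have hex : ∃ t, sd (blk W (D.walk F t).1) q ≤ 3 := ⟨t, h⟩
    refine ⟨Nat.find hex, ?_, Nat.find_spec hex, fun s hs => Nat.find_min hex hs⟩
    exact (Nat.find_min' hex h).trans ht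
  · rintro ⟨t, h1, h2, -⟩
    exact ⟨t, h1, h2⟩

/-- The block `q` is near the path and its rank is smaller than `r`. -/
def Ar (D : Dm) (W : ℤ) (r : ℕ) (q : Vtx) (F : Finset Edg) : Prop :=
  ∃ t, Hit D W q F t ∧ Nt D W F t < r

/-- The block `q` comes before the block `q'`. -/
def Kr (D : Dm) (W : ℤ) (r : ℕ) (R : ℕ → ℕ → Prop) (q q' : Vtx) (F : Finset Edg) : Prop :=
  ∃ t t', Hit D W q F t ∧ Hit D W q' F t' ∧ R t t' ∧ Nt D W F t' < r

theorem Ar_loc {D : Dm} (hD : D.Ok) {W : ℤ} (hW : 1 ≤ W) {r : ℕ} {q : Vtx} {F G : Finset Edg}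
    (hF : F ⊆ D.edges) (hG : G ⊆ D.edges) (hFG : ∀ e, e ∉ Lam D W q → (e ∈ F ↔ e ∈ G))
    (h : Ar D W r q F) : Ar D W r q G := by
  obtain ⟨t, h1, h2⟩ := h
  obtain ⟨h3, h4⟩ := hit_congr hD hW hF hG hFG h1
  exact ⟨t, h3, by rw [← Nt_congr h4]; exact h2⟩

theorem Kr_loc {D : Dm} (hD : D.Ok) {W : ℤ} (hW : 1 ≤ W) {r : ℕ} {R : ℕ → ℕ → Prop}
    (hR : ∀ s t, R s t → s ≤ t) {q q' : Vtx} {F G : Finset Edg}
    (hF : F ⊆ D.edges) (hG : G ⊆ D.edges) (hFG : ∀ e, e ∉ Lam D W q' → (e ∈ F ↔ e ∈ G))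
    (h : Kr D W r R q q' F) : Kr D W r R q q' G := by
  obtain ⟨t, t', h1, h2, h3, h4⟩ := h
  obtain ⟨h5, h6⟩ := hit_congr hD hW hF hG hFG h2
  refine ⟨t, t', ?_, h5, h3, by rw [← Nt_congr h6]; exact h4⟩
  obtain ⟨g1, g2, g3⟩ := h1
  have htt := hR _ _ h3
  refine ⟨htt.trans h5.1, ?_, ?_⟩
  · rw [← h6 t htt]
    exact g2
  · intro s hs
    rw [← h6 s (by omega)]
    exact g3 s hs

theorem Ar_split {D : Dm} {W : ℤ} {r : ℕ} {q q' : Vtx} {F : Finset Edg} :
    ind (Ar D W r q F) * ind (Ar D W r q' F) =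
      ind (Kr D W r (fun s t => s ≤ t) q q' F) + ind (Kr D W r (fun s t => s < t) q' q F) := by
  by_cases h : Ar D W r q F ∧ Ar D W r q' F
  · obtain ⟨⟨t, h1, h2⟩, t', h3, h4⟩ := h
    have a1 : Ar D W r q F := ⟨t, h1, h2⟩
    have a2 : Ar D W r q' F := ⟨t', h3, h4⟩
    rw [ind_of a1, ind_of a2]
    rcases Nat.lt_or_ge t' t with h5 | h5
    · have k1 : ¬ Kr D W r (fun s t => s ≤ t) q q' F := by
        rintro ⟨s, s', g1, g2, g3, -⟩
        have e1 := hit_unique g1 h1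
        have e2 := hit_unique g2 h3
        omega
      have k2 : Kr D W r (fun s t => s < t) q' q F := ⟨t', t, h3, h1, h5, h2⟩
      rw [ind_not_of k1, ind_of k2]
      norm_num
    · have k1 : ¬ Kr D W r (fun s t => s < t) q' q F := by
        rintro ⟨s, s', g1, g2, g3, -⟩
        have e1 := hit_unique g1 h3
        have e2 := hit_unique g2 h1
        omega
      have k2 : Kr D W r (fun s t => s ≤ t) q q' F := ⟨t, t', h1, h3, h5, h4⟩
      rw [ind_not_of k1, ind_of k2]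
      norm_num
  · have e0 : ind (Ar D W r q F) * ind (Ar D W r q' F) = 0 := by
      rw [← ind_and, ind_not_of h]
    have k1 : ¬ Kr D W r (fun s t => s ≤ t) q q' F := by
      rintro ⟨s, s', g1, g2, g3, g4⟩
      exact h ⟨⟨s, g1, lt_of_le_of_lt (Nt_mono D W F g3) g4⟩, ⟨s', g2, g4⟩⟩
    have k2 : ¬ Kr D W r (fun s t => s < t) q' q F := by
      rintro ⟨s, s', g1, g2, g3, g4⟩
      exact h ⟨⟨s', g2, g4⟩, ⟨s, g1, lt_of_le_of_lt (Nt_mono D W F (le_of_lt g3)) g4⟩⟩
    rw [e0, ind_not_of k1, ind_not_of k2]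
    norm_num

theorem Lam_sub (D : Dm) (W : ℤ) (q : Vtx) : Lam D W q ⊆ D.edges :=
  RE_subset (le_max_left _ _) (min_le_left _ _) (le_max_left _ _) (min_le_left _ _)

theorem Lam_disj {D : Dm} {W : ℤ} (hW : 1 ≤ W) {q r : Vtx} (h : 6 ≤ sd q r) :
    Disjoint (Lam D W q) (Lam D W r) := by
  rw [det_sd_eq] at h
  have key : ∀ x y : ℤ, 6 ≤ x - y → y * W + 6 * W ≤ x * W := by
    intro x y hxy
    have : (y + 6) * W ≤ x * W := mul_le_mul_of_nonneg_right (by omega) (by omega)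
    have e : (y + 6) * W = y * W + 6 * W := by ring
    omega
  have lam : ∀ (p : Vtx) (e : Edg), e ∈ Lam D W p →
      (p.1 * W - 2 * W ≤ (src e).1 ∧ (src e).1 ≤ p.1 * W + 3 * W) ∧
      p.2 * W - 2 * W ≤ (src e).2 ∧ (src e).2 ≤ p.2 * W + 3 * W := by
    rintro p ⟨x, y, _ | _⟩ he
    · unfold Lam at he
      rw [mem_RE_false] at he
      obtain ⟨a1, a2, a3, a4⟩ := he
      exact ⟨⟨(le_max_right _ _).trans a1, a2.trans (min_le_right _ _)⟩,
        (le_max_right _ _).trans a3, a4.le.trans (min_le_right _ _)⟩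
    · unfold Lam at he
      rw [mem_RE_true] at he
      obtain ⟨a1, a2, a3, a4⟩ := he
      exact ⟨⟨(le_max_right _ _).trans a1, a2.le.trans (min_le_right _ _)⟩,
        (le_max_right _ _).trans a3, a4.trans (min_le_right _ _)⟩
  rw [disjoint_left]
  intro e he hr
  obtain ⟨⟨a1, a2⟩, a3, a4⟩ := lam q e he
  obtain ⟨⟨b1, b2⟩, b3, b4⟩ := lam r e hr
  have hor : 6 ≤ q.1 - r.1 ∨ 6 ≤ r.1 - q.1 ∨ 6 ≤ q.2 - r.2 ∨ 6 ≤ r.2 - q.2 := by omega
  rcases hor with h1 | h1 | h1 | h1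
  · have := key _ _ h1; omega
  · have := key _ _ h1; omega
  · have := key _ _ h1; omega
  · have := key _ _ h1; omega

end Pool.Agent.Y985.ME
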