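import Pool.Agent.Y985.ME.Lln

/-!
All pieces of the path at the same time: deterministic part.
-/

set_option autoImplicit false

namespace Pool.Agent.Y985.ME

open H974 Finset H342P H984P H984N

/-- The blocks with distance at most three. -/
noncomputable def nb3 (p : Vtx) : Finset Vtx :=
  Finset.Icc (p.1 - 3) (p.1 + 3) ×ˢ Finset.Icc (p.2 - 3) (p.2 + 3)

theorem mem_nb3 {p q : Vtx} : q ∈ nb3 p ↔ sd p q ≤ 3 := by
  unfold nb3
  rw [mem_product, mem_Icc, mem_Icc, det_sd_eq]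
  omega

theorem card_nb3 (p : Vtx) : (nb3 p).card = 49 := by
  unfold nb3
  rw [card_product, Int.card_Icc, Int.card_Icc]
  have e1 : (p.1 + 3 + 1 - (p.1 - 3)).toNat = 7 := by omega
  have e2 : (p.2 + 3 + 1 - (p.2 - 3)).toNat = 7 := by omega
  rw [e1, e2]

open Classical in
theorem Nt_succ (D : Dm) (W : ℤ) (F : Finset Edg) (t : ℕ) : Nt D W F (t + 1) ≤ Nt D W F t + 49 := by
  unfold Nt
  have h : (Bks D W).filter (fun q => ∃ s < t + 1, sd (blk W (D.walk F s).1) q ≤ 3) ⊆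
      (Bks D W).filter (fun q => ∃ s < t, sd (blk W (D.walk F s).1) q ≤ 3) ∪
        nb3 (blk W (D.walk F t).1) := by
    intro q hq
    rw [mem_filter] at hq
    rw [mem_union, mem_filter, mem_nb3]
    obtain ⟨h1, s, hs, h2⟩ := hq
    rcases Nat.lt_or_ge s t with h3 | h3
    · exact Or.inl ⟨h1, s, h3, h2⟩
    · have : s = t := by omega
      rw [this] at h2
      exact Or.inr h2
  refine (card_le_card h).trans ((card_union_le _ _).trans ?_)
  rw [card_nb3]

theorem Ar_mono {D : Dm} {W : ℤ} {r r' : ℕ} (h : r ≤ r') {q : Vtx} {F : Finset Edg}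
    (hq : Ar D W r q F) : Ar D W r' q F := by
  obtain ⟨t, h1, h2⟩ := hq
  exact ⟨t, h1, lt_of_lt_of_le h2 h⟩

theorem Nt_lt {D : Dm} {W : ℤ} {q : Vtx} {F : Finset Edg} {t i : ℕ} (hq : q ∈ Bks D W)
    (h : Hit D W q F t) : Nt D W F t < Nt D W F i ↔ t < i := by
  classical
  constructor
  · intro h1
    by_contra h2
    exact absurd (Nt_mono D W F (not_lt.mp h2)) (not_le.mpr h1)
  · intro h1
    unfold Nt
    refine card_lt_card ⟨?_, ?_⟩
    · intro q' hq'
      rw [mem_filter] at hq' ⊢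
      obtain ⟨h2, s, hs, h3⟩ := hq'
      exact ⟨h2, s, by omega, h3⟩
    · intro hsub
      have h2 : q ∈ (Bks D W).filter (fun q => ∃ s < i, sd (blk W (D.walk F s).1) q ≤ 3) := by
        rw [mem_filter]
        exact ⟨hq, t, h1, h.2.1⟩
      have h3 := hsub h2
      rw [mem_filter] at h3
      obtain ⟨-, s, hs, h4⟩ := h3
      exact h.2.2 s hs h4

open Classical in
/-- Few blocks have their rank in a short interval. -/
theorem gap (D : Dm) (W : ℤ) (F : Finset Edg) {r r' : ℕ} (hr : r ≤ r') :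
    ((Bks D W).filter (fun q => Ar D W r' q F ∧ ¬ Ar D W r q F)).card ≤ (r' - r) + 49 := by
  obtain ⟨A', hA'⟩ : ∃ A' : Finset Vtx, A' = (Bks D W).filter (fun q => Ar D W r' q F) := ⟨_, rfl⟩
  obtain ⟨A, hA⟩ : ∃ A : Finset Vtx, A = (Bks D W).filter (fun q => Ar D W r q F) := ⟨_, rfl⟩
  rcases ((Bks D W).filter (fun q => Ar D W r' q F ∧ ¬ Ar D W r q F)).eq_empty_or_nonempty with
    h0 | ⟨q0, hq0⟩
  · rw [h0, card_empty]
    exact Nat.zero_le _
  rw [mem_filter] at hq0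
  obtain ⟨hq0B, ⟨t0, ht0, hN0⟩, hn0⟩ := hq0
  -- the upper bound
  have hup : A'.card + 1 ≤ r' + 49 := by
    -- the last time
    have hex : ∃ t, ∀ q ∈ A', ∃ s ≤ t, Hit D W q F s ∧ Nt D W F t < r' := by
      have key : ∀ B : Finset Vtx, B ⊆ A' → ∃ t, Nt D W F t < r' ∧ ∀ q ∈ B, ∃ s ≤ t, Hit D W q F s := by
        intro B
        induction B using Finset.induction_on with
        | empty =>
          intro _
          exact ⟨t0, hN0, fun q hq => absurd hq (notMem_empty q)⟩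
        | insert q B hq ih =>
          intro hB
          obtain ⟨t, ht, hall⟩ := ih ((subset_insert q B).trans hB)
          have h1 := hB (mem_insert_self q B)
          rw [hA', mem_filter] at h1
          obtain ⟨-, t', ht', hN'⟩ := h1
          refine ⟨max t t', ?_, ?_⟩
          · rcases max_choice t t' with h | h <;> rw [h]
            · exact ht
            · exact hN'
          · intro p hp
            rw [mem_insert] at hp
            rcases hp with rfl | hp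
            · exact ⟨t', le_max_right _ _, ht'⟩
            · obtain ⟨s, hs, hs'⟩ := hall p hp
              exact ⟨s, hs.trans (le_max_left _ _), hs'⟩
      obtain ⟨t, h1, h2⟩ := key A' (Subset.refl _)
      exact ⟨t, fun q hq => by
        obtain ⟨s, hs, hs'⟩ := h2 q hq
        exact ⟨s, hs, hs', h1⟩⟩
    obtain ⟨t, ht⟩ := hex
    have hne : q0 ∈ A' := by
      rw [hA', mem_filter]
      exact ⟨hq0B, t0, ht0, hN0⟩
    obtain ⟨-, -, -, hNt⟩ := ht q0 hne
    have h1 : A'.card ≤ Nt D W F (t + 1) := by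
      unfold Nt
      refine card_le_card fun q hq => ?_
      obtain ⟨s, hs, hs', -⟩ := ht q hq
      rw [mem_filter]
      rw [hA', mem_filter] at hq
      exact ⟨hq.1, s, by omega, hs'.2.1⟩
    have h2 := Nt_succ D W F t
    omega
  -- the lower bound
  have hlow : r ≤ A.card := by
    have hr0 : r ≤ Nt D W F t0 := by
      by_contra hcon
      exact hn0 ⟨t0, ht0, not_le.mp hcon⟩
    have hex : ∃ t, r ≤ Nt D W F t := ⟨t0, hr0⟩
    obtain ⟨t1, h1, h2, hmin⟩ : ∃ t1, r ≤ Nt D W F t1 ∧ t1 ≤ t0 ∧ ∀ u < t1, ¬ r ≤ Nt D W F u :=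
      ⟨Nat.find hex, Nat.find_spec hex, Nat.find_min' hex hr0, fun u hu => Nat.find_min hex hu⟩
    refine h1.trans ?_
    unfold Nt
    refine card_le_card fun q hq => ?_
    rw [mem_filter] at hq
    obtain ⟨hqB, s, hs, hq3⟩ := hq
    rw [hA, mem_filter]
    refine ⟨hqB, ?_⟩
    have hex2 : ∃ t, sd (blk W (D.walk F t).1) q ≤ 3 := ⟨s, hq3⟩
    obtain ⟨u0, hu1, hu2, hu3⟩ : ∃ u0, sd (blk W (D.walk F u0).1) q ≤ 3 ∧ u0 ≤ s ∧
        ∀ u < u0, ¬ sd (blk W (D.walk F u).1) q ≤ 3 :=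
      ⟨Nat.find hex2, Nat.find_spec hex2, Nat.find_min' hex2 hq3, fun u hu => Nat.find_min hex2 hu⟩
    have h5 := ht0.1
    refine ⟨u0, ⟨by omega, hu1, hu3⟩, ?_⟩
    have h4 := hmin u0 (by omega)
    exact not_le.mp h4
  have hsub : A ⊆ A' := by
    intro q hq
    rw [hA, mem_filter] at hq
    rw [hA', mem_filter]
    exact ⟨hq.1, Ar_mono hr hq.2⟩
  have he : (Bks D W).filter (fun q => Ar D W r' q F ∧ ¬ Ar D W r q F) = A' \ A := by
    ext q
    rw [mem_filter, mem_sdiff, hA, hA', mem_filter, mem_filter]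
    tauto
  rw [he, card_sdiff_of_subset hsub]
  omega

/-- The centred sum over the blocks of rank smaller than `r`. -/
noncomputable def ZZ (D : Dm) (W : ℤ) (Y : Vtx → Finset Edg → ℝ) (r : ℕ) (F : Finset Edg) : ℝ :=
  ∑ q ∈ Bks D W, ind (Ar D W r q F) * (Y q F - E D.edges (Y q))

theorem ZZ_gap {D : Dm} {W : ℤ} {Y : Vtx → Finset Edg → ℝ} {F : Finset Edg} {m : ℝ} (hm : 0 ≤ m)
    (hY0 : ∀ q, 0 ≤ Y q F) (hYm : ∀ q ∈ Bks D W, E D.edges (Y q) ≤ m) {r r' : ℕ} (hr : r ≤ r') :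
    ZZ D W Y r F ≤ ZZ D W Y r' F + m * (((r' - r : ℕ) : ℝ) + 49) := by
  classical
  have h1 : ZZ D W Y r' F - ZZ D W Y r F = ∑ q ∈ Bks D W,
      ind (Ar D W r' q F ∧ ¬ Ar D W r q F) * (Y q F - E D.edges (Y q)) := by
    unfold ZZ
    rw [← sum_sub_distrib]
    refine sum_congr rfl fun q _ => ?_
    rw [← sub_mul]
    congr 1
    by_cases h2 : Ar D W r q F
    · rw [ind_of h2, ind_of (Ar_mono hr h2), ind_not_of (fun h => h.2 h2)]
      norm_num
    · by_cases h3 : Ar D W r' q F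
      · rw [ind_not_of h2, ind_of h3, ind_of ⟨h3, h2⟩]
        norm_num
      · rw [ind_not_of h2, ind_not_of h3, ind_not_of (fun h => h3 h.1)]
        norm_num
  have h2 : -(m * (((r' - r : ℕ) : ℝ) + 49)) ≤ ZZ D W Y r' F - ZZ D W Y r F := by
    rw [h1]
    have h3 : ∑ q ∈ Bks D W, ind (Ar D W r' q F ∧ ¬ Ar D W r q F) * (-m) ≤
        ∑ q ∈ Bks D W, ind (Ar D W r' q F ∧ ¬ Ar D W r q F) * (Y q F - E D.edges (Y q)) := by
      refine sum_le_sum fun q hq => mul_le_mul_of_nonneg_left ?_ (ind_nonneg _)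
      have := hY0 q
      have := hYm q hq
      linarith
    refine le_trans ?_ h3
    rw [← sum_mul]
    have h4 : ∑ q ∈ Bks D W, ind (Ar D W r' q F ∧ ¬ Ar D W r q F) =
        (((Bks D W).filter (fun q => Ar D W r' q F ∧ ¬ Ar D W r q F)).card : ℝ) := by
      rw [card_filter]
      push_cast
      refine sum_congr rfl fun q _ => ?_
      by_cases h : Ar D W r' q F ∧ ¬ Ar D W r q F
      · rw [ind_of h, if_pos h]
      · rw [ind_not_of h, if_neg h]
    rw [h4]
    have h5 : (((Bks D W).filter (fun q => Ar D W r' q F ∧ ¬ Ar D W r q F)).card : ℝ) ≤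
        ((r' - r : ℕ) : ℝ) + 49 := by
      exact_mod_cast gap D W F hr
    nlinarith
  linarith

theorem ZZ_top {D : Dm} {W : ℤ} {Y : Vtx → Finset Edg → ℝ} {F : Finset Edg} {r r' : ℕ}
    (hr : (Bks D W).card + 1 ≤ r) (hr' : (Bks D W).card + 1 ≤ r') :
    ZZ D W Y r F = ZZ D W Y r' F := by
  unfold ZZ
  refine sum_congr rfl fun q _ => ?_
  have key : ∀ r, (Bks D W).card + 1 ≤ r → (Ar D W r q F ↔ Tch D W q F) := by
    intro r hr
    constructor
    · rintro ⟨t, ht, -⟩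
      exact tch_hit.mpr ⟨t, ht⟩
    · intro h
      exact Ar_mono hr (Ar_top.mpr h)
  rw [ind_congr (key r hr), ind_congr (key r' hr')]

/-- From a grid of ranks to all ranks. -/
theorem ZZ_all {D : Dm} {W : ℤ} {Y : Vtx → Finset Edg → ℝ} {F : Finset Edg} {m f : ℝ} (hm : 0 ≤ m)
    (hY0 : ∀ q, 0 ≤ Y q F) (hYm : ∀ q ∈ Bks D W, E D.edges (Y q) ≤ m) {g L : ℕ} (hg : 1 ≤ g)
    (hL : (Bks D W).card + 1 ≤ g * L) (hgrid : ∀ l ≤ L, |ZZ D W Y (g * l) F| ≤ f) (r : ℕ) :
    |ZZ D W Y r F| ≤ f + m * ((g : ℝ) + 49) := by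
  have hmg : 0 ≤ m * ((g : ℝ) + 49) := by positivity
  rcases Nat.lt_or_ge r (g * L) with h | h
  · have h1 : g * (r / g) ≤ r := Nat.mul_div_le r g
    have h2 : r < g * (r / g + 1) := by
      have := Nat.lt_mul_div_succ r (by omega : 0 < g)
      exact this
    have h3 : r / g < L := by
      rw [Nat.div_lt_iff_lt_mul (by omega)]
      rw [mul_comm]
      exact h
    have g1 := ZZ_gap (r := g * (r / g)) (r' := r) hm hY0 hYm h1
    have g2 := ZZ_gap (r := r) (r' := g * (r / g + 1)) hm hY0 hYm h2.le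
    have g3 := abs_le.mp (hgrid (r / g) h3.le)
    have g4 := abs_le.mp (hgrid (r / g + 1) (by omega))
    have e : g * (r / g + 1) = g * (r / g) + g := by ring
    have k1 : ((r - g * (r / g) : ℕ) : ℝ) ≤ g := by
      exact_mod_cast (by omega : r - g * (r / g) ≤ g)
    have k2 : ((g * (r / g + 1) - r : ℕ) : ℝ) ≤ g := by
      exact_mod_cast (by omega : g * (r / g + 1) - r ≤ g)
    have k3 : m * (((r - g * (r / g) : ℕ) : ℝ) + 49) ≤ m * ((g : ℝ) + 49) := by gcongr
    have k4 : m * (((g * (r / g + 1) - r : ℕ) : ℝ) + 49) ≤ m * ((g : ℝ) + 49) := by gcongr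
    rw [abs_le]
    constructor
    · linarith [g3.1]
    · linarith [g4.2]
  · rw [ZZ_top (r' := g * L) (hL.trans h) hL]
    have := hgrid L le_rfl
    linarith

/-- visited blocks are blocks of the rectangle -/
theorem blk_mem {D : Dm} (hD : D.Ok) {W : ℤ} (hW : 1 ≤ W) {F : Finset Edg} (hF : F ⊆ D.edges)
    (t : ℕ) : blk W (D.walk F t).1 ∈ Bks D W := by
  obtain ⟨⟨h1, h2⟩, h3, h4⟩ := walk_in hD hF t
  unfold blk Bks
  rw [mem_product, mem_Icc, mem_Icc]
  refine ⟨⟨Int.ediv_le_ediv (by omega) h1, Int.ediv_le_ediv (by omega) h2⟩,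
    Int.ediv_nonneg h3 (by omega), Int.ediv_le_ediv (by omega) h4⟩

open Classical in
/-- All pieces: the sum over the visited blocks. -/
theorem piece {D : Dm} (hD : D.Ok) {W : ℤ} (hW : 1 ≤ W) {Y : Vtx → Finset Edg → ℝ}
    {F : Finset Edg} (hF : F ⊆ D.edges) {m B K : ℝ} (hm : 0 ≤ m) (hK : 0 ≤ K)
    (hY0 : ∀ q, 0 ≤ Y q F) (hYK : ∀ q, Y q F ≤ K) (hYm : ∀ q ∈ Bks D W, E D.edges (Y q) ≤ m)
    (hB : ∀ r, |ZZ D W Y r F| ≤ B) {i j : ℕ} (hij : i ≤ j) (hj : j ≤ D.len F) :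
    ∑ q ∈ Vb D W i j F, Y q F ≤
      49 * m * ((Vb D W i j F).card : ℝ) + 2 * B + K * ((Rev D W i F).card : ℝ) := by
  obtain ⟨fr, hfr⟩ : ∃ fr : Finset Vtx, fr = (Bks D W).filter
    (fun q => ∃ t, Hit D W q F t ∧ i ≤ t ∧ t ≤ j) := ⟨_, rfl⟩
  -- fresh blocks
  have h1 : ∑ q ∈ fr, (Y q F - E D.edges (Y q)) =
      ZZ D W Y (Nt D W F (j + 1)) F - ZZ D W Y (Nt D W F i) F := by
    unfold ZZ
    rw [hfr, sum_filter, ← sum_sub_distrib]
    refine sum_congr rfl fun q hq => ?_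
    rw [← sub_mul]
    by_cases h2 : ∃ t, Hit D W q F t ∧ i ≤ t ∧ t ≤ j
    · rw [if_pos h2]
      obtain ⟨t, h3, h4, h5⟩ := h2
      have a1 : Ar D W (Nt D W F (j + 1)) q F := ⟨t, h3, (Nt_lt hq h3).mpr (by omega)⟩
      have a2 : ¬ Ar D W (Nt D W F i) q F := by
        rintro ⟨s, hs1, hs2⟩
        have := hit_unique hs1 h3
        have h6 := (Nt_lt hq hs1).mp hs2
        omega
      rw [ind_of a1, ind_not_of a2]
      ring
    · rw [if_neg h2]
      have a3 : Ar D W (Nt D W F (j + 1)) q F ↔ Ar D W (Nt D W F i) q F := by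
        constructor
        · rintro ⟨s, hs1, hs2⟩
          have h6 := (Nt_lt hq hs1).mp hs2
          refine ⟨s, hs1, (Nt_lt hq hs1).mpr ?_⟩
          by_contra h7
          exact h2 ⟨s, hs1, not_lt.mp h7, by omega⟩
        · rintro ⟨s, hs1, hs2⟩
          have h6 := (Nt_lt hq hs1).mp hs2
          exact ⟨s, hs1, (Nt_lt hq hs1).mpr (by omega)⟩
      rw [ind_congr a3]
      ring
  have h2 := abs_le.mp (hB (Nt D W F (j + 1)))
  have h3 := abs_le.mp (hB (Nt D W F i))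
  have h4 : ∑ q ∈ fr, Y q F ≤ 2 * B + m * (fr.card : ℝ) := by
    have h5 : ∑ q ∈ fr, Y q F = ∑ q ∈ fr, (Y q F - E D.edges (Y q)) +
        ∑ q ∈ fr, E D.edges (Y q) := by
      rw [← sum_add_distrib]
      refine sum_congr rfl fun q _ => ?_
      ring
    have h6 : ∑ q ∈ fr, E D.edges (Y q) ≤ m * (fr.card : ℝ) := by
      have : ∑ q ∈ fr, E D.edges (Y q) ≤ ∑ _q ∈ fr, m := by
        refine sum_le_sum fun q hq => ?_
        rw [hfr, mem_filter] at hq
        exact hYm q hq.1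
      refine this.trans (le_of_eq ?_)
      rw [sum_const, nsmul_eq_mul, mul_comm]
    rw [h5, h1]
    linarith [h2.2, h3.1]
  -- their number
  have h5 : fr.card ≤ 49 * (Vb D W i j F).card := by
    have hsub : fr ⊆ (Vb D W i j F).biUnion nb3 := by
      intro q hq
      rw [hfr, mem_filter] at hq
      obtain ⟨-, t, ht, h6, h7⟩ := hq
      rw [mem_biUnion]
      refine ⟨blk W (D.walk F t).1, ?_, mem_nb3.mpr ht.2.1⟩
      unfold Vb
      rw [mem_image]
      exact ⟨t, mem_Icc.mpr ⟨h6, h7⟩, rfl⟩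
    refine (card_le_card hsub).trans (card_biUnion_le.trans ?_)
    refine (sum_le_card_nsmul _ _ 49 fun q _ => (card_nb3 q).le).trans ?_
    rw [smul_eq_mul, mul_comm]
  have h5' : (fr.card : ℝ) ≤ 49 * ((Vb D W i j F).card : ℝ) := by exact_mod_cast h5
  -- decomposition
  have h6 : Vb D W i j F ⊆ fr ∪ Rev D W i F := by
    intro q hq
    unfold Vb at hq
    rw [mem_image] at hq
    obtain ⟨t, ht, rfl⟩ := hq
    rw [mem_Icc] at ht
    have hqB := blk_mem hD hW hF t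
    have h7 : sd (blk W (D.walk F t).1) (blk W (D.walk F t).1) ≤ 3 := by
      rw [det_sd_self]; norm_num
    obtain ⟨s, hs⟩ := tch_hit.mp (⟨t, ht.2.trans hj, h7⟩ :
      Tch D W (blk W (D.walk F t).1) F)
    have hst : s ≤ t := by
      by_contra hcon
      exact hs.2.2 t (not_le.mp hcon) h7
    rw [mem_union]
    by_cases h8 : i ≤ s
    · left
      rw [hfr, mem_filter]
      exact ⟨hqB, s, hs, h8, by omega⟩
    · right
      unfold Rev
      rw [mem_filter]
      exact ⟨hqB, ⟨s, not_le.mp h8, hs.2.1⟩, t, ht.1, ht.2.trans hj, rfl⟩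
  have h7 : ∑ q ∈ Vb D W i j F, Y q F ≤ ∑ q ∈ fr, Y q F + ∑ q ∈ Rev D W i F, Y q F := by
    refine (sum_le_sum_of_subset_of_nonneg h6 fun q _ _ => hY0 q).trans ?_
    have := sum_union_inter (s₁ := fr) (s₂ := Rev D W i F) (f := fun q => Y q F)
    have h8 : 0 ≤ ∑ q ∈ fr ∩ Rev D W i F, Y q F := sum_nonneg fun q _ => hY0 q
    linarith
  have h8 : ∑ q ∈ Rev D W i F, Y q F ≤ K * ((Rev D W i F).card : ℝ) := by
    refine (sum_le_sum fun q _ => hYK q).trans (le_of_eq ?_)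
    rw [sum_const, nsmul_eq_mul, mul_comm]
  have h9 : m * (fr.card : ℝ) ≤ m * (49 * ((Vb D W i j F).card : ℝ)) :=
    mul_le_mul_of_nonneg_left h5' hm
  linarith

end Pool.Agent.Y985.ME
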