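import Pool.Agent.Y655.ME.Slow
import Pool.Agent.Y991.ME.BadPr
import Pool.Agent.Y884.ME.Fast2
import Pool.Agent.Y674.ME.ModUp
import Pool.Agent.Y674.ME.OccUp
import Pool.Agent.Y337.ME.Occ
import Pool.Agent.Y317.ME.Fm
import Pool.Agent.H984R3.Per.UpPi
import Pool.Agent.H984R3.Per.LowEV
import Pool.Agent.H985R3.TA.Main
import Pool.Agent.H985R3.TA.STA

/-!
Assembly: the upper bound for the modulus of continuity and for the occupation.
-/

set_option autoImplicit false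

namespace Pool.Agent.Y985.ME

open H974 Finset H342P H984P H984N MeasureTheory Filter Topology

/-- The arm bounds. -/
theorem inputs : (∃ c : ℝ, 0 < c ∧ H984P.LowA c (1/4)) ∧
    (∃ C : ℝ, 0 < C ∧ H342P.TwoUp C (1/4)) ∧ (∃ C : ℝ, 0 < C ∧ AnnUp C) := by
  refine ⟨?_, ?_, ?_⟩
  · obtain ⟨B, m0, κ, hκ, h⟩ := H985T.EV_lower
    obtain ⟨c, hc, h2⟩ := H984P.lowA_of_EV (B := B) (m0 := m0) (s := 1/4) hκ (by norm_num)
      (fun m hm => by
        obtain ⟨ρ, c, s, c', f0, h1, h2, h3⟩ := h m hm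
        exact ⟨ρ, c, s, c', f0, h2, h1, h3⟩)
    exact ⟨c, hc, h2⟩
  · obtain ⟨C, hC, h⟩ := H985T.pi2_upper
    exact ⟨C, hC, H984P.twoUp_of_pi2 hC (by norm_num) h⟩
  · obtain ⟨C, hC, h⟩ := H985T.st_A
    exact ⟨C, hC, fun r R hr hR c1 c2 S => h r R hr hR c1 c2 S⟩

theorem s_blk : S_BLK := by
  obtain ⟨⟨c0, hc0, hL⟩, ⟨C0, hC0, hU⟩, -⟩ := inputs
  intro η hη
  obtain ⟨c, s, hc, hs, h⟩ := Pool.Agent.Y991.ME.badpr hc0 hC0 hL hU η hη
  refine ⟨c, max s 8, hc, by positivity, ?_⟩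
  intro D W hD hsW h1 h2 h3
  have hs1 : s ≤ W := (le_max_left _ _).trans hsW
  have hs8 : (8:ℝ) ≤ W := (le_max_right _ _).trans hsW
  have hW0 : (0:ℝ) < W := by linarith
  have h8 : (8:ℝ) * W ≤ max s 8 * W := mul_le_mul_of_nonneg_right (le_max_right _ _) hW0.le
  have g1 : 8 * W ≤ -D.l := by
    have : ((8 * W : ℤ) : ℝ) ≤ ((-D.l : ℤ) : ℝ) := by push_cast; linarith
    exact_mod_cast this
  have g2 : 8 * W ≤ D.r := by
    have : ((8 * W : ℤ) : ℝ) ≤ (D.r : ℝ) := by push_cast; linarith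
    exact_mod_cast this
  have g3 : 8 * W ≤ D.h := by
    have : ((8 * W : ℤ) : ℝ) ≤ (D.h : ℝ) := by push_cast; linarith
    exact_mod_cast this
  obtain ⟨R, L, w, hp, hb⟩ := h W hs1
  refine ⟨Bad ⌈c * (W : ℝ) ^ (7/4 : ℝ)⌉₊ R L w W D, ?_, ?_, ?_⟩
  · intro q F
    exact Pool.Agent.Y991.ME.bad_local hp D q F
  · intro q hq
    exact hb D hD g1 g2 g3 q hq
  · intro F hF q hq k l hkl hl hin hd
    have h4 := Pool.Agent.Y655.ME.slow D _ R L w W q F hD hp g1 g2 g3 hF hq k l hkl hl hin hd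
    refine (Nat.le_ceil _).trans ?_
    exact_mod_cast h4

theorem s_fast : S_FAST := Pool.Agent.Y884.ME.fast s_blk

theorem s_occ : S_OCC := by
  obtain ⟨-, ⟨C0, hC0, hU⟩, -⟩ := inputs
  exact Pool.Agent.Y337.ME.occ hC0 hU

theorem s_fm : S_FM := by
  obtain ⟨-, -, C0, hC0, hA⟩ := inputs
  exact Pool.Agent.Y317.ME.fm hC0 hA

/-- Upper bound for the modulus of continuity of the limits of the exploration path. -/
theorem mod_up (R : Rect) : ModUp R := Pool.Agent.Y674.ME.modup s_fast R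

/-- Upper bound for the time which the limits of the exploration path spend in small balls. -/
theorem occ_up (R : Rect) : OccUp R := Pool.Agent.Y674.ME.occup s_occ R

end Pool.Agent.Y985.ME
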